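import Pool.Agent.H86.TL.Bs

/-!
Local images at the odd places.
-/

set_option autoImplicit false

open WithZero H73IS

namespace H86TL

section

variable {F : Type*} [Field F] {V : Valuation F (WithZero (Multiplicative ℤ))}

lemma ne_of_odd {x : F} (h : Odd (log (V x))) : x ≠ 0 := by
  rintro rfl
  rw [map_zero, log_zero] at h
  exact absurd h (by decide)

/-- Type III: `v(b)` odd and `v(a) ≥ v(b) > 0`. -/
theorem loc_III (hS : ∀ x : F, V x < 1 → IsSquare (1 + x)) {a b d : F} (hab : V a ≤ V b)
    (hb1 : V b < 1) (hbo : Odd (log (V b))) (hd : d ≠ 0) (H : QPt a b d) :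
    IsSquare d ∨ IsSquare (b * d) := by
  have hb := ne_of_odd hbo
  rcases qpt_xy hd H with h | h | ⟨x, y, hx, hxy, hxd⟩
  · exact Or.inl h
  · exact Or.inr h
  rcases lt_trichotomy (V x ^ 2) (V b) with h | h | h
  · right
    have hx1 : V x < 1 := by
      by_contra h1
      have h2 : (1 : WithZero (Multiplicative ℤ)) ≤ V x ^ 2 := one_le_pow₀ (not_lt.1 h1)
      exact absurd (h.trans hb1) (not_lt.2 h2)
    have h3 : V (x ^ 2 + a * x + b - b) < V b := by
      rw [add_sub_cancel_right]
      refine lt_of_le_of_lt (V.map_add _ _) (max_lt ?_ ?_)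
      · rw [map_pow]
        exact h
      · rw [map_mul]
        calc V a * V x ≤ V b * V x := mul_le_mul_left hab _
          _ < V b * 1 := mul_lt_mul_of_pos_left hx1 (vpos hb)
          _ = V b := mul_one _
    have h4 := sq_of_eq hxy (ne_close h3) (sq_close hS h3)
    exact sq_trans hx (sq_symm h4) hxd
  · exfalso
    rw [← h, log_pow, nsmul_eq_mul] at hbo
    have : Even (((2 : ℕ) : ℤ) * log (V x)) := ⟨log (V x), by push_cast; ring⟩
    exact (Int.not_even_iff_odd.2 hbo) this
  · left
    have hbx : V b < V x := by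
      rcases lt_or_ge (V x) 1 with h1 | h1
      · calc V b < V x ^ 2 := h
          _ = V x * V x := sq _
          _ < V x * 1 := mul_lt_mul_of_pos_left h1 (vpos hx)
          _ = V x := mul_one _
      · exact hb1.trans_le h1
    have h3 : V (x ^ 2 + a * x + b - x ^ 2) < V (x ^ 2) := by
      rw [show x ^ 2 + a * x + b - x ^ 2 = a * x + b by ring]
      refine lt_of_le_of_lt (V.map_add _ _) (max_lt ?_ ?_)
      · rw [map_mul, map_pow, sq]
        exact mul_lt_mul_of_pos_right (hab.trans_lt hbx) (vpos hx)
      · rw [map_pow]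
        exact h
    have h4 := sq_of_eq hxy (ne_close h3) (sq_close hS h3)
    rw [sq_mul_sq hx] at h4
    have h5 := h4.mul hxd
    rw [show x * (x * d) = d * x ^ 2 by ring] at h5
    exact (sq_mul_sq hx).1 h5

/-- Multiplicative type, `v(b)` even. -/
theorem loc_Me (hS : ∀ x : F, V x < 1 → IsSquare (1 + x)) {a b d : F} (ha : V a = 1)
    (hb : b ≠ 0) (hb1 : V b < 1) (hbe : Even (log (V b))) (hr : ¬ IsSquare a) (hd : d ≠ 0)
    (H : QPt a b d) : Even (log (V d)) := by
  rcases qpt_xy hd H with h | h | ⟨x, y, hx, hxy, hxd⟩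
  · exact even_of_sq h
  · exact (even_iff hb hd h).1 hbe
  rw [← even_iff hx hd hxd]
  have ha0 : a ≠ 0 := by
    rintro rfl
    rw [map_zero] at ha
    exact zero_ne_one ha
  rcases lt_trichotomy (V x) (V b) with h | h | h
  · have h3 : V (x ^ 2 + a * x + b - b) < V b := by
      rw [add_sub_cancel_right]
      refine lt_of_le_of_lt (V.map_add _ _) (max_lt ?_ ?_)
      · rw [map_pow, sq]
        calc V x * V x < V x * 1 := mul_lt_mul_of_pos_left (h.trans hb1) (vpos hx)
          _ = V x := mul_one _
          _ < V b := h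
      · rw [map_mul, ha, one_mul]
        exact h
    have h4 := sq_of_eq hxy (ne_close h3) (sq_close hS h3)
    exact (even_iff hx hb h4).2 hbe
  · rw [h]
    exact hbe
  · rcases lt_trichotomy (V x) 1 with h1 | h1 | h1
    · exfalso
      have h3 : V (x ^ 2 + a * x + b - a * x) < V (a * x) := by
        rw [show x ^ 2 + a * x + b - a * x = x ^ 2 + b by ring, map_mul, ha, one_mul]
        refine lt_of_le_of_lt (V.map_add _ _) (max_lt ?_ h)
        rw [map_pow, sq]
        calc V x * V x < V x * 1 := mul_lt_mul_of_pos_left h1 (vpos hx)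
          _ = V x := mul_one _
      have h4 := sq_of_eq hxy (ne_close h3) (sq_close hS h3)
      rw [show x * (a * x) = a * x ^ 2 by ring, sq_mul_sq hx] at h4
      exact hr h4
    · rw [h1, log_one]
      exact ⟨0, by simp⟩
    · have h3 : V (x ^ 2 + a * x + b - x ^ 2) < V (x ^ 2) := by
        rw [show x ^ 2 + a * x + b - x ^ 2 = a * x + b by ring]
        refine lt_of_le_of_lt (V.map_add _ _) (max_lt ?_ ?_)
        · rw [map_mul, map_pow, sq, ha]
          exact mul_lt_mul_of_pos_right h1 (vpos hx)
        · rw [map_pow, sq]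
          calc V b < 1 := hb1
            _ = 1 * 1 := (one_mul 1).symm
            _ < V x * 1 := mul_lt_mul_of_pos_right h1 zero_lt_one
            _ < V x * V x := mul_lt_mul_of_pos_left h1 (vpos hx)
      have h4 := sq_of_eq hxy (ne_close h3) (sq_close hS h3)
      rw [sq_mul_sq hx] at h4
      exact even_of_sq h4

lemma odd_ne_sq {x : F} (h : Odd (log (V x))) : ¬ IsSquare x := fun h1 =>
  (Int.not_even_iff_odd.2 h) (even_of_sq h1)

/-- Multiplicative type, `v(b)` odd, twisted by `n` with `v(n)` odd and `-a b n` a square. -/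
theorem loc_Mo (hS : ∀ x : F, V x < 1 → IsSquare (1 + x)) {a b n d : F} (ha : V a = 1)
    (hb1 : V b < 1) (hbo : Odd (log (V b))) (hno : Odd (log (V n))) (hsq : IsSquare (-a * b * n))
    (hd : d ≠ 0) (H : QPt (a * n) (b * n ^ 2) d) : IsSquare d ∨ IsSquare (b * d) := by
  have hb := ne_of_odd hbo
  have hn := ne_of_odd hno
  have ha0 : a ≠ 0 := by
    rintro rfl
    rw [map_zero] at ha
    exact zero_ne_one ha
  rcases qpt_tw hn hd H with h | h | ⟨z, y, hz, hxy, hxd⟩
  · exact Or.inl h
  · exact Or.inr h
  have hnz : n * z ≠ 0 := mul_ne_zero hn hz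
  -- the two ways to conclude
  have c1 : IsSquare (n * z) → IsSquare d := by
    intro h
    have h5 := h.mul hxd
    rw [show n * z * (n * z * d) = d * (n * z) ^ 2 by ring] at h5
    exact (sq_mul_sq hnz).1 h5
  have c2 : IsSquare (n * z * b) → IsSquare (b * d) := fun h => sq_trans hnz (sq_symm h) hxd
  rcases lt_trichotomy (V z) 1 with h1 | h1 | h1
  · rcases lt_trichotomy (V z) (V b) with h | h | h
    · right
      have h3 : V (z ^ 2 + a * z + b - b) < V b := by
        rw [add_sub_cancel_right]
        refine lt_of_le_of_lt (V.map_add _ _) (max_lt ?_ ?_)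
        · rw [map_pow, sq]
          calc V z * V z < V z * 1 := mul_lt_mul_of_pos_left h1 (vpos hz)
            _ = V z := mul_one _
            _ < V b := h
        · rw [map_mul, ha, one_mul]
          exact h
      exact c2 (sq_of_eq hxy (ne_close h3) (sq_close hS h3))
    · left
      obtain ⟨t, ht⟩ : ∃ t, t = z / b := ⟨_, rfl⟩
      have hzt : z = b * t := by
        rw [ht]
        field_simp
      have ht1 : V t = 1 := by
        rw [ht, map_div₀, h]
        exact div_self ((Valuation.ne_zero_iff V).2 hb)
      have ht0 : t ≠ 0 := by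
        rintro rfl
        rw [map_zero] at ht1
        exact zero_ne_one ht1
      have hw : z ^ 2 + a * z + b = b * (1 + a * t + b * t ^ 2) := by
        rw [hzt]
        ring
      have h4 : V (1 + a * t) < 1 := by
        by_contra h5
        have h6 : V (1 + a * t) = 1 := by
          apply le_antisymm ?_ (not_lt.1 h5)
          refine (V.map_add _ _).trans (max_le (map_one V).le ?_)
          rw [map_mul, ha, ht1, one_mul]
        have h7 : V (1 + a * t + b * t ^ 2) = 1 := by
          rw [Valuation.map_add_eq_of_lt_left V (x := 1 + a * t) (y := b * t ^ 2), h6]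
          rw [h6, map_mul, map_pow, ht1, one_pow, mul_one]
          exact hb1
        have h8 : 1 + a * t + b * t ^ 2 ≠ 0 := by
          intro h9
          rw [h9, map_zero] at h7
          exact zero_ne_one h7
        have h9 : y ^ 2 = n * (t * (1 + a * t + b * t ^ 2)) * b ^ 2 := by
          rw [hxy, hw, hzt]
          ring
        have h10 : IsSquare (n * (t * (1 + a * t + b * t ^ 2))) := by
          rw [← sq_mul_sq hb, ← h9]
          exact ⟨y, sq y⟩
        have h11 := (even_iff hn (mul_ne_zero ht0 h8) h10).2 (by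
          rw [map_mul, ht1, h7, one_mul, log_one]
          exact ⟨0, by simp⟩)
        exact (Int.not_even_iff_odd.2 hno) h11
      -- `t` is close to `-1 / a`
      have h5 : V (t - -(1 / a)) < V (-(1 / a)) := by
        have e1 : t - -(1 / a) = (1 + a * t) / a := by
          field_simp
          ring
        rw [e1, map_div₀, Valuation.map_neg, map_div₀, map_one, ha, div_one, div_one]
        exact h4
      have h6 := sq_close hS h5
      apply c1
      rw [hzt]
      have h7 : IsSquare (n * b * t * (n * b * -(1 / a))) := by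
        have := h6
        rw [show n * b * t * (n * b * -(1 / a)) = t * -(1 / a) * (n * b) ^ 2 by ring,
          sq_mul_sq (mul_ne_zero hn hb)]
        exact this
      have h8 : IsSquare (n * b * -(1 / a)) := by
        rw [← sq_mul_sq (s := a) ha0]
        rw [show n * b * -(1 / a) * a ^ 2 = -a * b * n by
          field_simp]
        exact hsq
      have h9 := h7.mul h8
      have h10 : n * b * -(1 / a) ≠ 0 := by
        apply mul_ne_zero (mul_ne_zero hn hb)
        exact neg_ne_zero.2 (div_ne_zero one_ne_zero ha0)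
      rw [show n * b * t * (n * b * -(1 / a)) * (n * b * -(1 / a)) =
        (n * (b * t)) * (n * b * -(1 / a)) ^ 2 by ring] at h9
      exact (sq_mul_sq h10).1 h9
    · exfalso
      have h3 : V (z ^ 2 + a * z + b - a * z) < V (a * z) := by
        rw [show z ^ 2 + a * z + b - a * z = z ^ 2 + b by ring, map_mul, ha, one_mul]
        refine lt_of_le_of_lt (V.map_add _ _) (max_lt ?_ h)
        rw [map_pow, sq]
        calc V z * V z < V z * 1 := mul_lt_mul_of_pos_left h1 (vpos hz)
          _ = V z := mul_one _
      have h4 := sq_of_eq hxy (ne_close h3) (sq_close hS h3)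
      rw [show n * z * (a * z) = n * a * z ^ 2 by ring, sq_mul_sq hz] at h4
      have h5 := (even_iff hn ha0 h4).2 (by
        rw [ha, log_one]
        exact ⟨0, by simp⟩)
      exact (Int.not_even_iff_odd.2 hno) h5
  · -- `z` a unit
    right
    by_cases h4 : V (z + a) < 1
    · have h5 : V (z - -a) < V (-a) := by
        rw [sub_neg_eq_add, Valuation.map_neg, ha]
        exact h4
      have h6 := sq_close hS h5
      apply c2
      have h7 : IsSquare (n * z * (n * -a)) := by
        rw [show n * z * (n * -a) = z * -a * n ^ 2 by ring, sq_mul_sq hn]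
        exact h6
      have h8 : IsSquare (n * -a * b) := by
        rw [show n * -a * b = -a * b * n by ring]
        exact hsq
      exact sq_trans (mul_ne_zero hn (neg_ne_zero.2 ha0)) h7 h8
    · exfalso
      have h6 : V (z * (z + a)) = 1 := by
        rw [map_mul, h1, one_mul]
        apply le_antisymm ?_ (not_lt.1 h4)
        exact (V.map_add _ _).trans (max_le h1.le ha.le)
      have h7 : V (z ^ 2 + a * z + b) = 1 := by
        rw [show z ^ 2 + a * z + b = z * (z + a) + b by ring,
          Valuation.map_add_eq_of_lt_left V (x := z * (z + a)) (y := b) (by rw [h6]; exact hb1),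
          h6]
      have h8 : z ^ 2 + a * z + b ≠ 0 := by
        intro h9
        rw [h9, map_zero] at h7
        exact zero_ne_one h7
      have h10 : IsSquare (n * (z * (z ^ 2 + a * z + b))) := ⟨y, by rw [← sq, hxy]; ring⟩
      have h11 := (even_iff hn (mul_ne_zero hz h8) h10).2 (by
        rw [map_mul, h1, h7, one_mul, log_one]
        exact ⟨0, by simp⟩)
      exact (Int.not_even_iff_odd.2 hno) h11
  · left
    have h3 : V (z ^ 2 + a * z + b - z ^ 2) < V (z ^ 2) := by
      rw [show z ^ 2 + a * z + b - z ^ 2 = a * z + b by ring]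
      refine lt_of_le_of_lt (V.map_add _ _) (max_lt ?_ ?_)
      · rw [map_mul, map_pow, sq, ha]
        exact mul_lt_mul_of_pos_right h1 (vpos hz)
      · rw [map_pow, sq]
        calc V b < 1 := hb1
          _ = 1 * 1 := (one_mul 1).symm
          _ < V z * 1 := mul_lt_mul_of_pos_right h1 zero_lt_one
          _ < V z * V z := mul_lt_mul_of_pos_left h1 (vpos hz)
    have h4 := sq_of_eq hxy (ne_close h3) (sq_close hS h3)
    rw [sq_mul_sq hz] at h4
    exact c1 h4

/-- The isogenous curve at a multiplicative place with `v(b)` odd. -/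
theorem loc_Mo' (hS : ∀ x : F, V x < 1 → IsSquare (1 + x)) (h2 : V 2 = 1) {a b n d : F}
    (ha : V a = 1) (hb1 : V b < 1) (hbo : Odd (log (V b))) (hno : Odd (log (V n)))
    (hsq : IsSquare (-a * b * n)) (hd : d ≠ 0)
    (H : QPt (-2 * a * n) ((a ^ 2 - 4 * b) * n ^ 2) d) : IsSquare d ∨ IsSquare (-b * d) := by
  have hb := ne_of_odd hbo
  have hn := ne_of_odd hno
  have ha0 : a ≠ 0 := by
    rintro rfl
    rw [map_zero] at ha
    exact zero_ne_one ha
  have h4 : V 4 = 1 := by
    rw [show (4 : F) = 2 * 2 by norm_num, map_mul, h2, one_mul]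
  have hD : V (a ^ 2 - 4 * b - a ^ 2) < V (a ^ 2) := by
    rw [show a ^ 2 - 4 * b - a ^ 2 = -(4 * b) by ring, Valuation.map_neg, map_mul, h4, one_mul,
      map_pow, ha, one_pow]
    exact hb1
  have hDs : IsSquare (a ^ 2 - 4 * b) := by
    have h5 := sq_close hS hD
    rw [sq_mul_sq ha0] at h5
    exact h5
  have hD0 : a ^ 2 - 4 * b ≠ 0 := ne_close hD
  rcases qpt_tw hn hd H with h | h | ⟨z, y, hz, hxy, hxd⟩
  · exact Or.inl h
  · left
    obtain ⟨s, hs⟩ := hDs
    have hs0 : s ≠ 0 := by
      rintro rfl
      exact hD0 (by rw [hs, mul_zero])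
    rw [hs, show s * s * d = d * s ^ 2 by ring, sq_mul_sq hs0] at h
    exact h
  have hnz : n * z ≠ 0 := mul_ne_zero hn hz
  have c1 : IsSquare (n * z) → IsSquare d := by
    intro h
    have h5 := h.mul hxd
    rw [show n * z * (n * z * d) = d * (n * z) ^ 2 by ring] at h5
    exact (sq_mul_sq hnz).1 h5
  have c2 : IsSquare (n * z * -b) → IsSquare (-b * d) := fun h => sq_trans hnz (sq_symm h) hxd
  have hw : z ^ 2 + -2 * a * z + (a ^ 2 - 4 * b) = (z - a) ^ 2 - 4 * b := by ring
  rw [hw] at hxy
  rcases lt_trichotomy (V z) 1 with h1 | h1 | h1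
  · left
    have h3 : V ((z - a) ^ 2 - 4 * b - a ^ 2) < V (a ^ 2) := by
      rw [show (z - a) ^ 2 - 4 * b - a ^ 2 = z * (z - 2 * a) - 4 * b by ring, map_pow, ha, one_pow]
      refine lt_of_le_of_lt (V.map_sub _ _) (max_lt ?_ ?_)
      · rw [map_mul]
        have h5 : V (z - 2 * a) ≤ 1 := by
          refine (V.map_sub _ _).trans (max_le h1.le ?_)
          rw [map_mul, h2, ha, one_mul]
        calc V z * V (z - 2 * a) ≤ V z * 1 := mul_le_mul_right h5 _
          _ = V z := mul_one _
          _ < 1 := h1
      · rw [map_mul, h4, one_mul]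
        exact hb1
    have h5 := sq_of_eq hxy (ne_close h3) (sq_close hS h3)
    rw [sq_mul_sq ha0] at h5
    exact c1 h5
  · right
    rcases lt_or_ge (V b) (V ((z - a) ^ 2)) with h5 | h5
    · exfalso
      have h6 : V ((z - a) ^ 2 - 4 * b - (z - a) ^ 2) < V ((z - a) ^ 2) := by
        rw [show (z - a) ^ 2 - 4 * b - (z - a) ^ 2 = -(4 * b) by ring, Valuation.map_neg, map_mul,
          h4, one_mul]
        exact h5
      have hza : z - a ≠ 0 := by
        intro h7
        rw [h7, zero_pow two_ne_zero, map_zero] at h5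
        exact not_lt_zero h5
      have h7 := sq_of_eq hxy (ne_close h6) (sq_close hS h6)
      rw [sq_mul_sq hza] at h7
      have h8 := (even_iff hn hz h7).2 (by
        rw [h1, log_one]
        exact ⟨0, by simp⟩)
      exact (Int.not_even_iff_odd.2 hno) h8
    · have h6 : V (z - a) < V a := by
        rw [ha]
        by_contra h7
        have h8 : (1 : WithZero (Multiplicative ℤ)) ≤ V ((z - a) ^ 2) := by
          rw [map_pow]
          exact one_le_pow₀ (not_lt.1 h7)
        exact absurd (h5.trans_lt hb1) (not_lt.2 h8)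
      have h7 := sq_close hS h6
      apply c2
      have h8 : IsSquare (n * z * (n * a)) := by
        rw [show n * z * (n * a) = z * a * n ^ 2 by ring, sq_mul_sq hn]
        exact h7
      have h9 : IsSquare (n * a * -b) := by
        rw [show n * a * -b = -a * b * n by ring]
        exact hsq
      exact sq_trans (mul_ne_zero hn ha0) h8 h9
  · left
    have h3 : V ((z - a) ^ 2 - 4 * b - z ^ 2) < V (z ^ 2) := by
      rw [show (z - a) ^ 2 - 4 * b - z ^ 2 = -2 * a * z + (a ^ 2 - 4 * b) by ring]
      refine lt_of_le_of_lt (V.map_add _ _) (max_lt ?_ ?_)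
      · rw [map_mul, map_mul, Valuation.map_neg, h2, map_pow, sq, ha, one_mul]
        exact mul_lt_mul_of_pos_right h1 (vpos hz)
      · have h5 : V (a ^ 2 - 4 * b) = 1 := by
          rw [val_close hD, map_pow, ha, one_pow]
        rw [h5, map_pow, sq]
        calc (1 : WithZero (Multiplicative ℤ)) = 1 * 1 := (one_mul 1).symm
          _ < V z * 1 := mul_lt_mul_of_pos_right h1 zero_lt_one
          _ < V z * V z := mul_lt_mul_of_pos_left h1 (vpos hz)
    have h5 := sq_of_eq hxy (ne_close h3) (sq_close hS h3)
    rw [sq_mul_sq hz] at h5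
    exact c1 h5

/-- Places where the twist is ramified, `b` and the discriminant are units, the discriminant not a
square. -/
theorem loc_P (hS : ∀ x : F, V x < 1 → IsSquare (1 + x)) (h2 : V 2 = 1) {a b n d : F}
    (ha : V a ≤ 1) (hb1 : V b = 1) (hD1 : V (a ^ 2 - 4 * b) = 1) (hD : ¬ IsSquare (a ^ 2 - 4 * b))
    (hno : Odd (log (V n))) (hd : d ≠ 0) (H : QPt (a * n) (b * n ^ 2) d) :
    IsSquare d ∨ IsSquare (b * d) := by
  have hn := ne_of_odd hno
  have hb : b ≠ 0 := by
    rintro rfl
    rw [map_zero] at hb1
    exact zero_ne_one hb1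
  have h4 : V 4 = 1 := by
    rw [show (4 : F) = 2 * 2 by norm_num, map_mul, h2, one_mul]
  have h40 : (4 : F) ≠ 0 := by
    intro h
    rw [h, map_zero] at h4
    exact zero_ne_one h4
  rcases qpt_tw hn hd H with h | h | ⟨z, y, hz, hxy, hxd⟩
  · exact Or.inl h
  · exact Or.inr h
  have hnz : n * z ≠ 0 := mul_ne_zero hn hz
  have c1 : IsSquare (n * z) → IsSquare d := by
    intro h
    have h5 := h.mul hxd
    rw [show n * z * (n * z * d) = d * (n * z) ^ 2 by ring] at h5
    exact (sq_mul_sq hnz).1 h5
  have c2 : IsSquare (n * z * b) → IsSquare (b * d) := fun h => sq_trans hnz (sq_symm h) hxd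
  rcases lt_trichotomy (V z) 1 with h1 | h1 | h1
  · right
    have h3 : V (z ^ 2 + a * z + b - b) < V b := by
      rw [show z ^ 2 + a * z + b - b = z * (z + a) by ring, hb1, map_mul]
      have h5 : V (z + a) ≤ 1 := (V.map_add _ _).trans (max_le h1.le ha)
      calc V z * V (z + a) ≤ V z * 1 := mul_le_mul_right h5 _
        _ = V z := mul_one _
        _ < 1 := h1
    exact c2 (sq_of_eq hxy (ne_close h3) (sq_close hS h3))
  · exfalso
    have h5 : V (z ^ 2 + a * z + b) ≤ 1 := by
      refine (V.map_add _ _).trans (max_le ((V.map_add _ _).trans (max_le ?_ ?_)) hb1.le)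
      · rw [map_pow, h1, one_pow]
      · rw [map_mul, h1, mul_one]
        exact ha
    rcases lt_or_eq_of_le h5 with h6 | h6
    · have h7 : V ((2 * z + a) ^ 2 - (a ^ 2 - 4 * b)) < V (a ^ 2 - 4 * b) := by
        rw [show (2 * z + a) ^ 2 - (a ^ 2 - 4 * b) = 4 * (z ^ 2 + a * z + b) by ring, hD1, map_mul,
          h4, one_mul]
        exact h6
      have h8 := sq_close hS h7
      have h9 : 2 * z + a ≠ 0 := by
        intro h10
        apply ne_close h7
        rw [h10]
        ring
      rw [mul_comm, sq_mul_sq h9] at h8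
      exact hD h8
    · have h8 : z ^ 2 + a * z + b ≠ 0 := by
        intro h9
        rw [h9, map_zero] at h6
        exact zero_ne_one h6
      have h10 : IsSquare (n * (z * (z ^ 2 + a * z + b))) := ⟨y, by rw [← sq, hxy]; ring⟩
      have h11 := (even_iff hn (mul_ne_zero hz h8) h10).2 (by
        rw [map_mul, h1, h6, one_mul, log_one]
        exact ⟨0, by simp⟩)
      exact (Int.not_even_iff_odd.2 hno) h11
  · left
    have h3 : V (z ^ 2 + a * z + b - z ^ 2) < V (z ^ 2) := by
      rw [show z ^ 2 + a * z + b - z ^ 2 = a * z + b by ring]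
      have h5 : V (a * z + b) ≤ V z := by
        refine (V.map_add _ _).trans (max_le ?_ ?_)
        · rw [map_mul]
          calc V a * V z ≤ 1 * V z := mul_le_mul_left ha _
            _ = V z := one_mul _
        · rw [hb1]
          exact h1.le
      refine lt_of_le_of_lt h5 ?_
      rw [map_pow, sq]
      calc V z = 1 * V z := (one_mul _).symm
        _ < V z * V z := mul_lt_mul_of_pos_right h1 (vpos hz)
    have h5 := sq_of_eq hxy (ne_close h3) (sq_close hS h3)
    rw [sq_mul_sq hz] at h5
    exact c1 h5

end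

end H86TL
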