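import Pool.Agent.H86.TL.Bs
import Pool.Agent.H38.RT.Dp

/-!
Local images at the places above two.
-/

set_option autoImplicit false

open WithZero H73IS

namespace H86TL

section

variable {F : Type*} [Field F] {V : Valuation F (WithZero (Multiplicative ℤ))}

lemma Tq_four (V : Valuation F (WithZero (Multiplicative ℤ))) : V 4 = V 2 * V 2 := by
  rw [← map_mul]
  norm_num

/-- A unit congruent to five up to an element of odd order smaller than that of four is not a
square. -/
theorem nsq_five {e : ℤ} (he : 0 < e) (h2 : V 2 = exp (-e)) {x : F} (hx0 : V (x - 5) < 1)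
    (hodd : Odd (log (V (x - 5)))) (hlt : V 4 < V (x - 5)) : ¬ IsSquare x := by
  rintro ⟨s, rfl⟩
  have h20 : (2 : F) ≠ 0 := by
    intro h
    rw [h, map_zero] at h2
    exact exp_ne_zero h2.symm
  have h4 : V 4 = exp (-(2 * e)) := by
    rw [Tq_four, h2, ← exp_add]
    congr 1
    ring
  have h4lt : V 4 < 1 := by
    rw [h4, ← exp_zero, exp_lt_exp]
    omega
  have h2lt : V 2 < 1 := by
    rw [h2, ← exp_zero, exp_lt_exp]
    omega
  -- `s^2 - 1` has the valuation of `s^2 - 5`
  have h5 : V (s * s - 1) = V (s * s - 5) := by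
    rw [show s * s - 1 = (s * s - 5) + 4 by ring]
    exact Valuation.map_add_eq_of_lt_left V hlt
  have h6 : V (s * s - 1) < 1 := by
    rw [h5]
    exact hx0
  have h7 : V (s - 1) < 1 := by
    by_contra h8
    have h9 : (1 : WithZero (Multiplicative ℤ)) ≤ V (s - 1) := not_lt.1 h8
    have h10 : V (s + 1) = V (s - 1) := by
      rw [show s + 1 = (s - 1) + 2 by ring]
      exact Valuation.map_add_eq_of_lt_left V (h2lt.trans_le h9)
    have h11 : V (s * s - 1) = V (s - 1) * V (s - 1) := by
      rw [show s * s - 1 = (s + 1) * (s - 1) by ring, map_mul, h10]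
    rw [h11] at h6
    exact absurd (one_le_mul h9 h9) (not_le.2 h6)
  obtain ⟨r, hr⟩ : ∃ r, r = s - 1 := ⟨_, rfl⟩
  have hs : s * s - 1 = r * (r + 2) := by
    rw [hr]
    ring
  rw [← hr] at h7
  rw [← h5, hs] at hodd hlt
  have hr0 : r ≠ 0 := by
    rintro rfl
    rw [zero_mul, map_zero] at hlt
    exact not_lt_zero hlt
  rcases lt_or_ge (V 2) (V r) with h8 | h8
  · have h9 : V (r + 2) = V r := Valuation.map_add_eq_of_lt_left V h8
    rw [map_mul, h9, log_mul ((Valuation.ne_zero_iff V).2 hr0) ((Valuation.ne_zero_iff V).2 hr0)]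
      at hodd
    exact (Int.not_even_iff_odd.2 hodd) ⟨_, rfl⟩
  · have h9 : V (r * (r + 2)) ≤ V 4 := by
      rw [map_mul, Tq_four]
      exact mul_le_mul' h8 ((V.map_add _ _).trans (max_le h8 le_rfl))
    exact absurd hlt (not_lt.2 h9)

/-- The local image at two on the curve with `A` congruent to five: even valuations. -/
theorem loc_two (hS : ∀ x : F, V x < V 4 → IsSquare (1 + x)) {e : ℤ} (he : 0 < e)
    (h2 : V 2 = exp (-e)) (h5 : ¬ IsSquare (5 : F)) {A B d : F} (hA : V (A - 5) < V 4) {k : ℕ}
    (hB : log (V B) = -((4 + 2 * k) * e)) (hd : d ≠ 0) (H : QPt A B d) : Even (log (V d)) := by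
  have hB0 : B ≠ 0 := by
    rintro rfl
    rw [map_zero, log_zero] at hB
    have : 0 < (4 + 2 * (k : ℤ)) * e := by positivity
    omega
  have hBe : Even (log (V B)) := by
    rw [hB, even_neg]
    exact (Even.add (by decide) (even_two_mul _)).mul_right _
  have h4 : log (V 4) = -(2 * e) := by
    rw [Tq_four, h2, ← exp_add, log_exp]
    ring
  have h40 : (4 : F) ≠ 0 := by
    intro h
    rw [h, map_zero, log_zero] at h4
    omega
  have h4lt : V 4 < 1 := by
    rw [← map_one V, log_lt' h40 one_ne_zero, h4, log_one']
    omega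
  have h5V : V (5 : F) = 1 := by
    rw [show (5 : F) = 1 + 4 by norm_num, ← map_one V]
    rw [← map_one V] at h4lt
    exact Valuation.map_add_eq_of_lt_left V h4lt
  have hAV : V A = 1 := by
    rw [val_close (x := A) (y := 5) (by rw [h5V]; exact hA.trans h4lt), h5V]
  have hA0 : A ≠ 0 := by
    rintro rfl
    rw [map_zero] at hAV
    exact zero_ne_one hAV
  rcases qpt_xy hd H with h | h | ⟨x, y, hx, hxy, hxd⟩
  · exact even_of_sq h
  · exact (even_iff hB0 hd h).1 hBe
  rw [← even_iff hx hd hxd]
  by_contra hodd
  rw [Int.not_even_iff_odd] at hodd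
  have hBlt : V B < 1 := by
    rw [← map_one V, log_lt' hB0 one_ne_zero, hB, log_one']
    have : 0 < (4 + 2 * (k : ℤ)) * e := by positivity
    omega
  -- parity kills the extreme cases
  have hpar : ∀ w : F, w ≠ 0 → x ^ 2 + A * x + B = w ∨ V (x ^ 2 + A * x + B) = V w →
      Even (log (V w)) → False := by
    intro w hw hw2 hwe
    have h6 : V (x ^ 2 + A * x + B) = V w := by
      rcases hw2 with h | h
      · rw [h]
      · exact h
    have h7 : x ^ 2 + A * x + B ≠ 0 := by
      intro h8
      rw [h8, map_zero] at h6
      exact hw ((map_eq_zero V).1 h6.symm)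
    have h8 : IsSquare (x * (x ^ 2 + A * x + B)) := ⟨y, by rw [← hxy, sq]⟩
    have h9 := (even_iff (V := V) hx h7 h8).2 (by rw [h6]; exact hwe)
    exact (Int.not_even_iff_odd.2 hodd) h9
  rcases lt_trichotomy (V x) 1 with h1 | h1 | h1
  · rcases lt_trichotomy (V x) (V B) with h | h | h
    · refine hpar B hB0 (Or.inr ?_) hBe
      apply val_close
      rw [add_sub_cancel_right]
      refine lt_of_le_of_lt (V.map_add _ _) (max_lt ?_ ?_)
      · rw [map_pow, sq]
        calc V x * V x < V x * 1 := mul_lt_mul_of_pos_left h1 (vpos hx)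
          _ = V x := mul_one _
          _ < V B := h
      · rw [map_mul, hAV, one_mul]
        exact h
    · rw [h] at hodd
      exact (Int.not_even_iff_odd.2 hodd) hBe
    · -- the main case
      have hsq : IsSquare (A + (x + B / x)) := by
        refine ⟨y / x, ?_⟩
        field_simp
        linear_combination -hxy
      have hlog1 : log (V x) < 0 := by
        rw [← map_one V, log_lt' hx one_ne_zero, log_one'] at h1
        exact h1
      have hlog2 : log (V B) < log (V x) := (log_lt' hB0 hx).1 h
      have hBx0 : B / x ≠ 0 := div_ne_zero hB0 hx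
      have hlogBx : log (V (B / x)) = log (V B) - log (V x) := by
        have h6 : log (V (B / x * x)) = log (V (B / x)) + log (V x) := log_mul' hBx0 hx
        rw [div_mul_cancel₀ _ hx] at h6
        omega
      -- if the error is smaller than four, `A` is five up to squares
      have hend : V (x + B / x) < V 4 → False := by
        intro h6
        have h7 : V (A + (x + B / x) - 5) < V 4 := by
          rw [show A + (x + B / x) - 5 = (A - 5) + (x + B / x) by ring]
          exact lt_of_le_of_lt (V.map_add _ _) (max_lt hA h6)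
        have h8 : V ((A + (x + B / x) - 5) / 5) < V 4 := by
          rw [map_div₀, h5V, div_one]
          exact h7
        have h50 : (5 : F) ≠ 0 := by
          intro h9
          rw [h9, map_zero] at h5V
          exact zero_ne_one h5V
        have h9 := hS _ h8
        have h10 : 1 + (A + (x + B / x) - 5) / 5 = (A + (x + B / x)) / 5 := by
          field_simp
          ring
        rw [h10] at h9
        obtain ⟨t, ht⟩ := h9
        obtain ⟨u, hu⟩ := hsq
        have ht0 : t ≠ 0 := by
          rintro rfl
          rw [mul_zero, div_eq_zero_iff] at ht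
          rcases ht with h11 | h11
          · rw [h11, zero_sub, Valuation.map_neg, h5V] at h7
            exact absurd h7 (not_lt.2 h4lt.le)
          · exact h50 h11
        apply h5
        refine ⟨u / t, ?_⟩
        rw [hu] at ht
        field_simp
        field_simp at ht
        linear_combination -ht
      -- if it has odd order at most that of four it contradicts `nsq_five`
      have hend' : V (x + B / x) < 1 → Odd (log (V (x + B / x))) → False := by
        intro h6 h7
        rcases lt_trichotomy (V (x + B / x)) (V 4) with h8 | h8 | h8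
        · exact hend h8
        · rw [h8, h4] at h7
          rw [Int.odd_iff] at h7
          omega
        · have h9 : V (A + (x + B / x) - 5) = V (x + B / x) := by
            rw [show A + (x + B / x) - 5 = (x + B / x) + (A - 5) by ring]
            exact Valuation.map_add_eq_of_lt_left V (hA.trans h8)
          exact nsq_five he h2 (by rw [h9]; exact h6) (by rw [h9]; exact h7) (by rw [h9]; exact h8)
            hsq
      have hBxlt : V (B / x) < 1 := by
        rw [← map_one V, log_lt' hBx0 one_ne_zero, log_one', hlogBx]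
        omega
      rcases lt_trichotomy (V x) (V (B / x)) with h6 | h6 | h6
      · have h7 : V (x + B / x) = V (B / x) := Valuation.map_add_eq_of_lt_right V h6
        refine hend' (by rw [h7]; exact hBxlt) ?_
        rw [h7, hlogBx]
        exact Even.sub_odd hBe hodd
      · -- equal orders: `v(x) = (2 + k) e` with `k` odd
        have h7 : log (V x) = log (V B) - log (V x) := by rw [← hlogBx, ← h6]
        have h8 : log (V x) = -((2 + k) * e) := by
          have : 2 * log (V x) = -(2 * ((2 + k) * e)) := by
            rw [hB] at h7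
            linear_combination h7
          omega
        have hk : 1 ≤ k := by
          by_contra hk
          have hk0 : k = 0 := by omega
          rw [hk0] at h8
          rw [h8] at hodd
          rw [Int.odd_iff] at hodd
          push_cast at hodd
          omega
        apply hend
        refine lt_of_le_of_lt (V.map_add _ _) ?_
        rw [← h6, max_self, log_lt' hx h40, h8, h4]
        have : (1 : ℤ) ≤ k := by exact_mod_cast hk
        nlinarith
      · have h7 : V (x + B / x) = V x := Valuation.map_add_eq_of_lt_left V h6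
        refine hend' (by rw [h7]; exact h1) ?_
        rw [h7]
        exact hodd
  · rw [h1, log_one] at hodd
    exact absurd hodd (by decide)
  · refine hpar (x ^ 2) (pow_ne_zero 2 hx) (Or.inr ?_) ?_
    · apply val_close
      rw [show x ^ 2 + A * x + B - x ^ 2 = A * x + B by ring]
      refine lt_of_le_of_lt (V.map_add _ _) (max_lt ?_ ?_)
      · rw [map_mul, map_pow, sq, hAV]
        exact mul_lt_mul_of_pos_right h1 (vpos hx)
      · rw [map_pow, sq]
        calc V B < 1 := hBlt
          _ = 1 * 1 := (one_mul 1).symm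
          _ < V x * 1 := mul_lt_mul_of_pos_right h1 zero_lt_one
          _ < V x * V x := mul_lt_mul_of_pos_left h1 (vpos hx)
    · exact even_of_sq ⟨x, sq x⟩

/-- The local image at two on the isogenous curve: primary elements. -/
theorem loc_two' {A B d : F} (h20 : (2 : F) ≠ 0) (h2lt : V 2 < 1) (hA : V (A - 1) ≤ V 4)
    (hB0 : B ≠ 0) (hB : V B ≤ V 16) (hD : A ^ 2 - 4 * B ≠ 0) (hd : d ≠ 0)
    (H : QPt (-2 * A) (A ^ 2 - 4 * B) d) : H38RT.Prm V d := by
  have h40 : (4 : F) ≠ 0 := by
    rw [show (4 : F) = 2 * 2 by norm_num]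
    exact mul_ne_zero h20 h20
  have h4lt : V 4 < 1 := by
    rw [Tq_four]
    calc V 2 * V 2 < V 2 * 1 := mul_lt_mul_of_pos_left h2lt (vpos h20)
      _ = V 2 := mul_one _
      _ < 1 := h2lt
  have hAV : V A = 1 := by
    rw [val_close (x := A) (y := 1) (by rw [map_one]; exact hA.trans_lt h4lt), map_one]
  have hA0 : A ≠ 0 := by
    rintro rfl
    rw [map_zero] at hAV
    exact zero_ne_one hAV
  have h16 : V (16 : F) = V 4 ^ 2 := by
    rw [← map_pow]
    norm_num
  have hB1 : V B ≤ 1 := hB.trans (by rw [h16]; exact pow_le_one₀ zero_le h4lt.le)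
  -- it is enough to treat an element in the same class
  have key : ∀ x : F, x ≠ 0 → IsSquare (x * d) → H38RT.Prm V x → H38RT.Prm V d := by
    rintro x hx ⟨s, hs⟩ ⟨t, z, c, ht, hz, hc, hxt⟩
    refine ⟨s * t / x, z, c, ?_, hz, hc, ?_⟩
    · apply div_ne_zero (mul_ne_zero ?_ ht) hx
      rintro rfl
      rw [mul_zero] at hs
      exact mul_ne_zero hx hd hs
    · rw [div_pow, mul_pow, div_mul_eq_mul_div, mul_assoc, ← hxt]
      field_simp
      linear_combination hs
  rcases qpt_xy hd H with h | h | ⟨x, y, hx, hxy, hxd⟩
  · exact key 1 one_ne_zero (by rwa [one_mul]) ⟨1, 1, 0, one_ne_zero, map_one _, by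
      rw [map_zero]
      exact zero_le, by ring⟩
  · refine key _ hD h ⟨A, 1, B / A ^ 2, hA0, map_one _, ?_, ?_⟩
    · rw [map_div₀, map_pow, hAV, one_pow, div_one]
      exact hB1
    · field_simp
  · refine key x hx hxd ?_
    have hw : x ^ 2 + -2 * A * x + (A ^ 2 - 4 * B) = (x - A) ^ 2 - 4 * B := by ring
    rw [hw] at hxy
    rcases le_or_gt (V B) (V (x - A) ^ 2) with h | h
    · have hxA : x - A ≠ 0 := by
        intro h0
        rw [h0, map_zero, zero_pow two_ne_zero] at h
        exact hB0 ((map_eq_zero V).1 (le_antisymm h zero_le))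
      have hc : V (B / (x - A) ^ 2) ≤ 1 := by
        rw [map_div₀, map_pow]
        exact (div_le_one₀ (by rw [← map_pow]; exact vpos (pow_ne_zero 2 hxA))).2 h
      have hu : V (1 - 4 * (B / (x - A) ^ 2)) = 1 := by
        rw [val_close (x := 1 - 4 * (B / (x - A) ^ 2)) (y := 1), map_one]
        rw [show 1 - 4 * (B / (x - A) ^ 2) - 1 = -(4 * (B / (x - A) ^ 2)) by ring,
          Valuation.map_neg, map_mul, map_one]
        calc V 4 * V (B / (x - A) ^ 2) ≤ V 4 * 1 := mul_le_mul_right hc _
          _ = V 4 := mul_one _
          _ < 1 := h4lt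
      have hu0 : 1 - 4 * (B / (x - A) ^ 2) ≠ 0 := by
        intro h0
        rw [h0, map_zero] at hu
        exact zero_ne_one hu
      obtain ⟨c, hcdef⟩ : ∃ c, c = B / (x - A) ^ 2 := ⟨_, rfl⟩
      rw [← hcdef] at hc hu hu0
      have hBc : B = c * (x - A) ^ 2 := by
        rw [hcdef]
        field_simp
      rw [hBc] at hxy
      have hy0 : y ≠ 0 := by
        rintro rfl
        have h3 : x * ((x - A) ^ 2 * (1 - 4 * c)) = 0 := by linear_combination -hxy
        exact (mul_ne_zero hx (mul_ne_zero (pow_ne_zero 2 hxA) hu0)) h3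
      refine ⟨y / ((x - A) * (1 - 4 * c)), 1, c, div_ne_zero hy0 (mul_ne_zero hxA hu0), map_one _,
        hc, ?_⟩
      field_simp
      linear_combination -hxy
    · have h3 : V (x - A) < V 4 := by
        by_contra h4
        have h5 : V 4 ^ 2 ≤ V (x - A) ^ 2 := pow_le_pow_left₀ zero_le (not_lt.1 h4) 2
        rw [← h16] at h5
        exact absurd (hB.trans h5) (not_le.2 h)
      have h4 : V (1 - x) ≤ V 4 := by
        rw [show 1 - x = -((x - A) + (A - 1)) by ring, Valuation.map_neg]
        exact (V.map_add _ _).trans (max_le h3.le hA)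
      refine ⟨1, 1, (1 - x) / 4, one_ne_zero, map_one _, ?_, ?_⟩
      · rw [map_div₀]
        exact (div_le_one₀ (vpos h40)).2 h4
      · field_simp
        ring

end

end H86TL
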