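import Pool.Agent.H86.TL.Nr
import Pool.Agent.H86.TL.Od
import Pool.Agent.H86.TL.Tq

/-!
From the completions to the local functions on square classes.
-/

set_option autoImplicit false
open scoped Classical

open WithZero NumberField IsDedekindDomain H38RT H38T1 Pool.Agent.H10

namespace H86TL

variable {K : Type} [Field K] [NumberField K]

/-- The class has a representative which is the element times a square. -/
theorem rep_sc {d : K} (hd : d ≠ 0) : ∃ s : K, s ≠ 0 ∧ rep (sc d) = d * s ^ 2 := by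
  have h1 : sc (rep (sc d) * d) = 0 := by
    rw [sc_mul (rep_ne _) hd, sc_rep]
    have := SC.two_smul (sc d)
    rwa [two_nsmul] at this
  rw [sc_eq_zero (mul_ne_zero (rep_ne _) hd)] at h1
  obtain ⟨s, hs⟩ := h1
  have hs0 : s ≠ 0 := by
    rintro rfl
    rw [mul_zero] at hs
    exact mul_ne_zero (rep_ne _) hd hs
  refine ⟨s / d, div_ne_zero hs0 hd, ?_⟩
  field_simp
  linear_combination hs

theorem loc_exists (v : HeightOneSpectrum (𝓞 K)) : ∃ (q : ℕ) (d : ℤ) (ψ : AddChar K Circle),
    Loc (v.valuation K) (unif v) q d ψ := by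
  obtain ⟨ψ, d, h⟩ := exists_psi K
  exact ⟨_, _, _, exists_loc h v (unif_spec v)⟩

theorem sw_sq (w : K →+* ℝ) {x s : K} (hs : s ≠ 0) : sw w (x * s ^ 2) = sw w x := by
  unfold sw
  have h1 : 0 < (w s) ^ 2 := by
    have := (map_ne_zero w).mpr hs
    positivity
  have h2 : w (x * s ^ 2) < 0 ↔ w x < 0 := by
    rw [map_mul, map_pow]
    constructor
    · intro h3
      by_contra h4
      exact absurd (mul_nonneg (not_lt.mp h4) h1.le) (not_le.mpr h3)
    · intro h3
      exact mul_neg_of_neg_of_pos h3 h1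
  simp only [h2]

theorem si_sc (w : K →+* ℝ) {d : K} (hd : d ≠ 0) : si w (sc d) = sw w d := by
  obtain ⟨s, hs, h⟩ := rep_sc hd
  unfold si
  rw [h, sw_sq w hs]

theorem eo_sc (v : HeightOneSpectrum (𝓞 K)) {d : K} (hd : d ≠ 0) :
    eo v (sc d) = (ord (v.valuation K) d : ZMod 2) := by
  obtain ⟨s, hs, h⟩ := rep_sc hd
  unfold eo
  rw [h, sq, ord_mul hd (mul_ne_zero hs hs), ord_mul hs hs]
  push_cast
  have h2 : (2 : ZMod 2) = 0 := by decide
  linear_combination (ord (v.valuation K) s : ZMod 2) * h2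

theorem la_sc (v : HeightOneSpectrum (𝓞 K)) (hv : OddP v) {d : K} (hd : d ≠ 0) :
    la v (sc d) = lam (v.valuation K) (unif v) d := by
  obtain ⟨s, hs, h⟩ := rep_sc hd
  obtain ⟨q, c, ψ, hl⟩ := loc_exists v
  unfold la
  rw [h, sq, lam_mul hl hv hd (mul_ne_zero hs hs), lam_mul hl hv hs hs]
  have h2 : (2 : ZMod 2) = 0 := by decide
  linear_combination (lam (v.valuation K) (unif v) s) * h2

theorem eo_add (v : HeightOneSpectrum (𝓞 K)) (c c' : SC K) : eo v (c + c') = eo v c + eo v c' := by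
  obtain ⟨x, hx, rfl⟩ := sc_surj c
  obtain ⟨y, hy, rfl⟩ := sc_surj c'
  rw [← sc_mul hx hy, eo_sc v hx, eo_sc v hy, eo_sc v (mul_ne_zero hx hy), ord_mul hx hy]
  push_cast
  rfl

theorem la_add (v : HeightOneSpectrum (𝓞 K)) (hv : OddP v) (c c' : SC K) :
    la v (c + c') = la v c + la v c' := by
  obtain ⟨x, hx, rfl⟩ := sc_surj c
  obtain ⟨y, hy, rfl⟩ := sc_surj c'
  obtain ⟨q, c, ψ, hl⟩ := loc_exists v
  rw [← sc_mul hx hy, la_sc v hv hx, la_sc v hv hy, la_sc v hv (mul_ne_zero hx hy),
    lam_mul hl hv hx hy]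

/-- An even valuation in the completion. -/
theorem eo_of_even (v : HeightOneSpectrum (𝓞 K)) {d : K} (hd : d ≠ 0)
    (h : Even (log (Valued.v (algebraMap K (v.adicCompletion K) d)))) : eo v (sc d) = 0 := by
  rw [valued_algebraMap] at h
  rw [eo_sc v hd]
  unfold ord
  rw [Int.cast_neg, neg_eq_zero, ZMod.intCast_zmod_eq_zero_iff_dvd]
  exact_mod_cast h.two_dvd

/-- A square in the completion at an odd place. -/
theorem triv_of_sq (v : HeightOneSpectrum (𝓞 K)) (hv : OddP v) {d : K} (hd : d ≠ 0)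
    (h : IsSquare (algebraMap K (v.adicCompletion K) d)) :
    eo v (sc d) = 0 ∧ la v (sc d) = 0 := by
  have h1 : Even (log (Valued.v (algebraMap K (v.adicCompletion K) d))) := even_of_sq h
  refine ⟨eo_of_even v hd h1, ?_⟩
  rw [la_sc v hv hd]
  unfold lam
  rw [if_pos]
  obtain ⟨s, hs⟩ := h
  -- the unit `u = d * π ^ (- ord d)` is a square in the completion
  have hπ : unif v ≠ 0 := by
    intro h0
    have := unif_spec v
    rw [h0, map_zero] at this
    exact exp_ne_zero this.symm
  obtain ⟨q, c, ψ, hl⟩ := loc_exists v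
  have hu := Ta_unit hl hd
  obtain ⟨m, hm⟩ : Even (ord (v.valuation K) d) := by
    unfold ord
    rw [valued_algebraMap] at h1
    exact h1.neg
  obtain ⟨r, hr⟩ : ∃ r, r = s * (algebraMap K (v.adicCompletion K) (unif v)) ^ (-m) := ⟨_, rfl⟩
  have hr2 : algebraMap K (v.adicCompletion K) (d * unif v ^ (-ord (v.valuation K) d)) = r * r := by
    rw [map_mul, map_zpow₀, hs, hr, hm, neg_add, zpow_add₀ ((map_ne_zero _).2 hπ)]
    ring
  have hrV : Valued.v r = 1 := by
    have h3 : Valued.v (r * r) = 1 := by rw [← hr2, valued_algebraMap, hu]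
    rw [map_mul] at h3
    rcases lt_trichotomy (Valued.v r) 1 with h4 | h4 | h4
    · exfalso
      have : Valued.v r * Valued.v r < 1 := mul_lt_one_of_lt_of_le h4 h4.le
      rw [h3] at this
      exact lt_irrefl _ this
    · exact h4
    · exfalso
      have : 1 < Valued.v r * Valued.v r := one_lt_mul_of_lt_of_le h4 h4.le
      rw [h3] at this
      exact lt_irrefl _ this
  obtain ⟨t, ht⟩ := exists_close v r 0
  rw [exp_zero] at ht
  refine ⟨t, ?_⟩
  rw [← valued_algebraMap, map_sub, hr2, map_pow]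
  have htV : Valued.v (algebraMap K (v.adicCompletion K) t) ≤ 1 := by
    have h2 : algebraMap K (v.adicCompletion K) t =
        (algebraMap K (v.adicCompletion K) t - r) + r := by ring
    rw [h2]
    exact Valuation.map_add_le _ ht.le hrV.le
  rw [show r * r - (algebraMap K (v.adicCompletion K) t) ^ 2 =
    -((algebraMap K (v.adicCompletion K) t - r) * (algebraMap K (v.adicCompletion K) t + r)) by
      ring, Valuation.map_neg, map_mul]
  calc _ ≤ Valued.v (algebraMap K (v.adicCompletion K) t - r) * 1 :=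
        mul_le_mul_right (Valuation.map_add_le _ htV hrV.le) _
    _ = Valued.v (algebraMap K (v.adicCompletion K) t - r) := mul_one _
    _ < 1 := ht

/-- Elements which agree up to squares in the completion. -/
theorem same_of_sq (v : HeightOneSpectrum (𝓞 K)) (hv : OddP v) {x d : K} (hx : x ≠ 0) (hd : d ≠ 0)
    (h : IsSquare (algebraMap K (v.adicCompletion K) x * algebraMap K (v.adicCompletion K) d)) :
    eo v (sc d) = eo v (sc x) ∧ la v (sc d) = la v (sc x) := by
  rw [← map_mul] at h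
  obtain ⟨h1, h2⟩ := triv_of_sq v hv (mul_ne_zero hx hd) h
  rw [sc_mul hx hd] at h1 h2
  rw [eo_add] at h1
  rw [la_add v hv] at h2
  have key : ∀ a b : ZMod 2, a + b = 0 → b = a := by decide
  exact ⟨key _ _ h1, key _ _ h2⟩

/-- The Legendre class of a unit which is not a square in the completion. -/
theorem la_of_nonsq (v : HeightOneSpectrum (𝓞 K)) (h2 : (2 : 𝓞 K) ∉ v.asIdeal) {x : K}
    (hx1 : v.valuation K x = 1) (h : ¬ IsSquare (algebraMap K (v.adicCompletion K) x)) :
    eo v (sc x) = 0 ∧ la v (sc x) = 1 := by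
  have hx : x ≠ 0 := by
    rintro rfl
    rw [map_zero] at hx1
    exact zero_ne_one hx1
  have hv : OddP v := by
    have := val_eq_one_of_notMem h2
    have e2 : ((2 : 𝓞 K) : K) = 2 := map_ofNat (algebraMap (𝓞 K) K) 2
    rw [e2] at this
    exact this
  refine ⟨?_, ?_⟩
  · apply eo_of_even v hx
    rw [valued_algebraMap, hx1, log_one]
    exact ⟨0, by simp⟩
  · rw [la_sc v hv hx, lam_unit hx1, if_neg]
    rintro ⟨t, ht⟩
    apply h
    have h3 : Valued.v (algebraMap K (v.adicCompletion K) x -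
        (algebraMap K (v.adicCompletion K) t) ^ 2) < 1 := by
      rw [← map_pow, ← map_sub, valued_algebraMap]
      exact ht
    have h4 : Valued.v ((algebraMap K (v.adicCompletion K) t) ^ 2) = 1 := by
      have h5 : (algebraMap K (v.adicCompletion K) t) ^ 2 = algebraMap K (v.adicCompletion K) x -
          (algebraMap K (v.adicCompletion K) x - (algebraMap K (v.adicCompletion K) t) ^ 2) := by
        ring
      rw [h5, Valuation.map_sub_eq_of_lt_left]
      · rw [valued_algebraMap, hx1]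
      · rw [valued_algebraMap, hx1]
        exact h3
    have h5 := sq_close (hS_odd v h2) (by rw [h4]; exact h3)
    have h6 : algebraMap K (v.adicCompletion K) t ≠ 0 := by
      intro h7
      rw [h7, zero_pow two_ne_zero, map_zero] at h4
      exact zero_ne_one h4
    exact (sq_mul_sq h6).1 h5

theorem tp_zero_left (v : HeightOneSpectrum (𝓞 K)) {c c' : SC K} (h1 : eo v c = 0)
    (h2 : la v c = 0) : tp v c c' = 0 := by
  unfold tp
  rw [h1, h2]
  ring

theorem tp_zero_unit (v : HeightOneSpectrum (𝓞 K)) {c c' : SC K} (h1 : eo v c = 0)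
    (h2 : eo v c' = 0) : tp v c c' = 0 := by
  unfold tp
  rw [h1, h2]
  ring

/-- The symbol of `x` and `-x`. -/
theorem tp_neg (v : HeightOneSpectrum (𝓞 K)) (hv : OddP v) {x : K} (hx : x ≠ 0) :
    tp v (sc x) (sc (-x)) = 0 := by
  have h1 : (-1 : K) ≠ 0 := neg_ne_zero.2 one_ne_zero
  have h2 : sc (-x) = sc (-1) + sc x := by
    rw [← sc_mul h1 hx, neg_one_mul]
  have h3 : eo v (sc (-1 : K)) = 0 := by
    rw [eo_sc v h1]
    unfold ord
    rw [Valuation.map_neg, map_one, log_one]
    simp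
  unfold tp
  rw [h2, eo_add, la_add v hv, h3]
  generalize eo v (sc x) = a
  generalize la v (sc x) = b
  generalize la v (sc (-1 : K)) = c
  revert a b c
  decide

/-- If `d` agrees with `x` up to squares and `g` with `-x`, the symbol vanishes. -/
theorem tp_same (v : HeightOneSpectrum (𝓞 K)) {x d g : SC K} (h1 : eo v d = eo v x)
    (h2 : la v d = la v x) (h : tp v x g = 0) : tp v d g = 0 := by
  unfold tp at h ⊢
  rw [h1, h2]
  exact h

/-- The primary condition. -/
theorem pri_of (v : HeightOneSpectrum (𝓞 K)) (h2 : (2 : 𝓞 K) ∈ v.asIdeal) {d : K} (hd : d ≠ 0)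
    (h : Prm (Valued.v : Valuation (v.adicCompletion K) (WithZero (Multiplicative ℤ)))
      (algebraMap K (v.adicCompletion K) d)) : Pri v (sc d) := by
  obtain ⟨t, z, c, ht, hz, hc, hdt⟩ := h
  have h20 : (2 : K) ≠ 0 := two_ne_zero
  have hV2 : v.valuation K 2 < 1 := by
    have e2 : ((2 : 𝓞 K) : K) = 2 := map_ofNat (algebraMap (𝓞 K) K) 2
    rw [← e2]
    exact (v.valuation_lt_one_iff_mem _).2 h2
  have hV4 : v.valuation K 4 = v.valuation K 2 * v.valuation K 2 := by
    rw [← map_mul]
    norm_num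
  have hV40 : v.valuation K 4 ≠ 0 := by
    rw [Valuation.ne_zero_iff]
    norm_num
  have hV4lt : v.valuation K 4 < 1 := by
    rw [hV4]
    exact mul_lt_one_of_lt_of_le hV2 hV2.le
  have e4 : Valued.v (4 : v.adicCompletion K) = v.valuation K 4 := valued_ofNat v 4
  -- approximations of `t` and `z`
  obtain ⟨t', ht'⟩ := exists_close v t (log (v.valuation K 4 * Valued.v t))
  obtain ⟨z', hz'⟩ := exists_close v z (log (v.valuation K 4))
  rw [exp_log (mul_ne_zero hV40 ((Valuation.ne_zero_iff _).2 ht))] at ht'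
  rw [exp_log hV40] at hz'
  obtain ⟨T, hT⟩ : ∃ T, T = algebraMap K (v.adicCompletion K) t' := ⟨_, rfl⟩
  obtain ⟨Z, hZ⟩ : ∃ Z, Z = algebraMap K (v.adicCompletion K) z' := ⟨_, rfl⟩
  rw [← hT] at ht'
  rw [← hZ] at hz'
  have htV : Valued.v T = Valued.v t := by
    apply val_close
    refine ht'.trans ?_
    calc v.valuation K 4 * Valued.v t < 1 * Valued.v t := mul_lt_mul_of_pos_right hV4lt (vpos ht)
      _ = Valued.v t := one_mul _
  have ht0 : T ≠ 0 := by
    intro h0
    rw [h0, map_zero] at htV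
    exact ht ((map_eq_zero _).1 htV.symm)
  have ht0' : t' ≠ 0 := by
    rintro rfl
    exact ht0 (by rw [hT, map_zero])
  have hzV : Valued.v Z = 1 := by
    rw [← hz]
    apply val_close
    rw [hz]
    exact hz'.trans hV4lt
  -- the unit `u = (t / T)^2` is one modulo four
  have hu : Valued.v (t / T - 1) < v.valuation K 4 := by
    have e : t / T - 1 = -((T - t) / T) := by
      field_simp
      ring
    rw [e, Valuation.map_neg, map_div₀, div_lt_iff₀ (by rw [htV]; exact vpos ht), htV]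
    exact ht'
  obtain ⟨ε, hε⟩ : ∃ ε, ε = t / T - 1 := ⟨_, rfl⟩
  rw [← hε] at hu
  have htT : t = T * (1 + ε) := by
    rw [hε]
    field_simp
    ring
  have hε1 : Valued.v ε ≤ 1 := (hu.trans hV4lt).le
  obtain ⟨C, hC⟩ : ∃ C, C = (Z ^ 2 - (1 + ε) ^ 2 * (z ^ 2 - 4 * c)) / 4 := ⟨_, rfl⟩
  have h40 : (4 : v.adicCompletion K) ≠ 0 := by norm_num
  have hCV : Valued.v C ≤ 1 := by
    have e : C = ((Z - z) * (Z + z) / 4) - (ε / 4) * (2 + ε) * (z ^ 2 - 4 * c) + c := by
      rw [hC]
      field_simp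
      ring
    have h2V : Valued.v (2 : v.adicCompletion K) ≤ 1 := by
      have : Valued.v (2 : v.adicCompletion K) = v.valuation K 2 := valued_ofNat v 2
      rw [this]
      exact hV2.le
    have h4V : Valued.v (4 : v.adicCompletion K) ≤ 1 := by
      rw [e4]
      exact hV4lt.le
    have hzz : Valued.v (z ^ 2 - 4 * c) ≤ 1 := by
      refine (Valuation.map_sub _ _ _).trans (max_le ?_ ?_)
      · rw [map_pow, hz, one_pow]
      · rw [map_mul]
        exact mul_le_one' h4V hc
    rw [e]
    refine Valuation.map_add_le _ ((Valuation.map_sub _ _ _).trans (max_le ?_ ?_)) hc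
    · rw [mul_comm, mul_div_assoc, map_mul, map_div₀, e4]
      refine mul_le_one' (Valuation.map_add_le _ hzV.le hz.le) ?_
      exact (div_le_one₀ (zero_lt_iff.2 hV40)).2 hz'.le
    · rw [map_mul, map_mul, map_div₀, e4]
      refine mul_le_one' (mul_le_one' ?_ (Valuation.map_add_le _ h2V hε1)) hzz
      exact (div_le_one₀ (zero_lt_iff.2 hV40)).2 hu.le
  have hdK : d = t' ^ 2 * (z' ^ 2 - 4 * ((z' ^ 2 - d / t' ^ 2) / 4)) := by
    field_simp
    ring
  have hCK : algebraMap K (v.adicCompletion K) ((z' ^ 2 - d / t' ^ 2) / 4) = C := by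
    rw [map_div₀, map_sub, map_div₀, map_pow, map_pow, map_ofNat, ← hT, ← hZ, hdt, hC, htT]
    field_simp
  have hPd : Prm (v.valuation K) d := by
    refine ⟨t', z', (z' ^ 2 - d / t' ^ 2) / 4, ht0', ?_, ?_, hdK⟩
    · rw [← valued_algebraMap, ← hZ, hzV]
    · rw [← valued_algebraMap, hCK]
      exact hCV
  obtain ⟨s, hs, h3⟩ := rep_sc hd
  unfold Pri
  rw [h3]
  obtain ⟨t, z, c, ht, hz, hc, hdt⟩ := hPd
  refine ⟨t * s, z, c, mul_ne_zero ht hs, hz, hc, ?_⟩
  rw [hdt]
  ring

end H86TL
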