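import Pool.Agent.H73.IS.Mw
import Pool.Agent.H10.SelTors
import Pool.Agent.H11.MW

/-!
The two-isogeny descent when the everywhere soluble classes are the classes of the points of
order two: the two-primary part of the Tate-Shafarevich group is trivial and the Mordell-Weil group
is finite.
-/

set_option autoImplicit false
open scoped Classical

open WeierstrassCurve IsDedekindDomain NumberField Pool.Agent.H10 H73IS

namespace H86TL

/-- The everywhere soluble classes are those of `1` and `b`. -/
def Only (K : Type) [Field K] [NumberField K] (a b : K) : Prop :=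
  ∀ d : K, d ≠ 0 → FinQ K a b d → InfQ K a b d → IsSquare d ∨ IsSquare (b * d)

section

variable {K : Type} [Field K] [NumberField K] {V : WeierstrassCurve K} {a b : K}

/-- The doubling formula for the `x`-coordinate. -/
theorem dbl_x {k : Type*} [Field k] {W : WeierstrassCurve k} {a b : k} (h : IsTw W a b) {x y : k}
    (hxy : W.toAffine.Nonsingular x y)
    (hT : Affine.Point.some x y hxy + Affine.Point.some x y hxy = h.T) : x ^ 2 = b := by
  have h2 := h.two
  have he := Bas_eqn h hxy
  by_cases hy : y = 0
  · exfalso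
    have h3 : Affine.Point.some x y hxy + Affine.Point.some x y hxy = 0 := by
      apply Affine.Point.add_self_of_Y_eq
      rw [Bas_negY h, hy, neg_zero]
    rw [h3] at hT
    exact Affine.Point.some_ne_zero _ hT.symm
  · have h1 : y ≠ W.toAffine.negY x y := by
      rw [Bas_negY h]
      intro h3
      have h4 : (2 : k) * y = 0 := by linear_combination h3
      rcases mul_eq_zero.1 h4 with h5 | h5
      · exact h2 h5
      · exact hy h5
    rw [Affine.Point.add_self_of_Y_ne h1, IsTw.T, Affine.Point.some.injEq] at hT
    have h3 := hT.1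
    rw [Affine.addX, Affine.slope_of_Y_ne rfl h1, Bas_negY h, h.a₁, h.a₂, h.a₄] at h3
    have h4 : y - -y ≠ 0 := by
      intro h5
      have h6 : (2 : k) * y = 0 := by linear_combination h5
      rcases mul_eq_zero.1 h6 with h7 | h7
      · exact h2 h7
      · exact hy h7
    obtain ⟨l, hl⟩ : ∃ l, l = (3 * x ^ 2 + 2 * a * x + b - 0 * y) / (y - -y) := ⟨_, rfl⟩
    rw [← hl] at h3
    have h5 : l * (y - -y) = 3 * x ^ 2 + 2 * a * x + b - 0 * y := by
      rw [hl, div_mul_cancel₀ _ h4]
    have h6 : (3 * x ^ 2 + 2 * a * x + b) ^ 2 = 4 * y ^ 2 * (a + 2 * x) := by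
      have h7 : (l * (y - -y)) ^ 2 = (3 * x ^ 2 + 2 * a * x + b) ^ 2 := by
        rw [h5]
        ring
      linear_combination -h7 + 4 * y ^ 2 * h3
    have h8 : (x ^ 2 - b) ^ 2 = 0 := by linear_combination h6 + 4 * (a + 2 * x) * he
    have h9 : x ^ 2 - b = 0 := pow_eq_zero_iff (two_ne_zero) |>.1 h8
    linear_combination h9

/-- Every everywhere locally trivial cocycle with two-torsion values is the coboundary of a point
whose double is zero or `T`. -/
theorem con_cob (h : IsTw V a b) (H : Only K a b) (H' : Only K (-2 * a) (a ^ 2 - 4 * b))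
    {f : Coch K V} (hf : Sl K V f) :
    ∃ Q : (V.baseChange (AlgebraicClosure K)).toAffine.Point,
      (Q + Q = 0 ∨ Q + Q = (h.bc (AlgebraicClosure K)).T) ∧
      ∀ σ, f σ = act (inv_bc K V) σ Q - Q := by
  have hE := h.bc (AlgebraicClosure K)
  have h2 := hE.two
  have hTT : hE.T + hE.T = 0 := T_add_T hE
  have hT0 : hE.T ≠ 0 := by
    unfold IsTw.T
    exact Affine.Point.some_ne_zero _
  have hneg : ∀ z : AlgebraicClosure K, z ≠ 0 → -z ≠ z := by
    intro z hz h0
    have h4 : (2 : AlgebraicClosure K) * z = 0 := by linear_combination -h0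
    rcases mul_eq_zero.1 h4 with h5 | h5
    · exact h2 h5
    · exact hz h5
  -- the coboundary of a point is in the Selmer group if its double is fixed
  have hcob : ∀ Q : (V.baseChange (AlgebraicClosure K)).toAffine.Point,
      (∀ σ, act (inv_bc K V) σ (Q + Q) = Q + Q) →
      Sl K V (fun σ => act (inv_bc K V) σ Q - Q) := by
    intro Q hQ
    have h3 : (fun σ => act (inv_bc K V) σ Q - Q : Coch K V) ∈ ShaZ K V :=
      shaB_le K V ((isCobound_iff _).2 ⟨Q, fun σ => rfl⟩)
    refine ⟨h3.1, h3.2, fun σ => ?_⟩
    have h4 := hQ σ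
    rw [map_add] at h4
    calc act (inv_bc K V) σ Q - Q + (act (inv_bc K V) σ Q - Q) =
        (act (inv_bc K V) σ Q + act (inv_bc K V) σ Q) - (Q + Q) := by abel
      _ = 0 := by rw [h4, sub_self]
  -- first step: the values are zero or `T`
  obtain ⟨Q₁, hQ₁, hf₁⟩ : ∃ Q₁ : (V.baseChange (AlgebraicClosure K)).toAffine.Point,
      (Q₁ + Q₁ = 0 ∨ Q₁ + Q₁ = hE.T) ∧
      Sl K V (f - fun σ => act (inv_bc K V) σ Q₁ - Q₁) ∧
      ∀ σ, sg ((f - fun σ => act (inv_bc K V) σ Q₁ - Q₁) σ) = 1 := by
    obtain ⟨r, d, hr, hd, hs⟩ := kum hE (inv_bc K V) ((isCocycle_iff f).1 hf.1) hf.2.2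
    obtain ⟨hF, hI⟩ := loc_a h hf.2.1 hf.2.2 hr hd hs
    have hd0 : d ≠ 0 := by
      rintro rfl
      rw [map_zero] at hd
      exact hr (pow_eq_zero_iff (two_ne_zero) |>.1 hd)
    rcases H d hd0 hF hI with ⟨s, hs'⟩ | ⟨s, hs'⟩
    · refine ⟨0, Or.inl (add_zero 0), ?_, ?_⟩
      · have e : (f - fun σ => act (inv_bc K V) σ 0 - 0 : Coch K V) = f := by
          funext σ
          rw [Pi.sub_apply, map_zero, sub_zero, sub_zero]
        rw [e]
        exact hf
      · intro σ
        rw [Pi.sub_apply, map_zero, sub_zero, sub_zero]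
        have hfix : σ r = r := I1_fix hd hs' σ
        rcases Int.units_eq_one_or (sg (f σ)) with h1 | h1
        · exact h1
        · exfalso
          have h3 := hs σ
          rw [h1, hfix] at h3
          push_cast at h3
          exact hneg r hr (by linear_combination -h3)
    · obtain ⟨Q, hQ⟩ := exists_two hE hE.T
      have hfixT : ∀ σ, act (inv_bc K V) σ (Q + Q) = Q + Q := by
        intro σ
        rw [hQ]
        exact act_T hE _ σ
      have hSg := hcob Q hfixT
      have hSub := hf.sub hSg
      obtain ⟨x, y, hxy, rfl⟩ : ∃ x y hxy, Q = Affine.Point.some x y hxy := by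
        rcases Q with _ | ⟨x, y, hxy⟩
        · exfalso
          apply hT0
          rw [← hQ]
          exact add_zero _
        · exact ⟨x, y, hxy, rfl⟩
      have hxb := dbl_x hE hxy hQ
      have hx0 : x ≠ 0 := by
        rintro rfl
        apply hE.hb
        rw [← hxb]
        ring
      -- the character of the coboundary is that of `x`
      have hchar : ∀ σ : AlgebraicClosure K ≃ₐ[K] AlgebraicClosure K,
          σ x = ((sg (act (inv_bc K V) σ (Affine.Point.some x y hxy) -
            Affine.Point.some x y hxy) : ℤ) : AlgebraicClosure K) * x := by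
        intro σ
        obtain ⟨S, hS⟩ : ∃ S, S = act (inv_bc K V) σ (Affine.Point.some x y hxy) -
          Affine.Point.some x y hxy := ⟨_, rfl⟩
        rw [← hS]
        have hS2 : S + S = 0 := by
          rw [hS]
          exact hSg.2.2 σ
        have hsum : act (inv_bc K V) σ (Affine.Point.some x y hxy) =
            Affine.Point.some x y hxy + S := by
          rw [hS]
          abel
        have hnegQ : -Affine.Point.some x y hxy = Affine.Point.some x y hxy + hE.T := by
          have e1 : Affine.Point.some x y hxy + Affine.Point.some x y hxy + hE.T = 0 := by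
            rw [hQ, hTT]
          have e2 : Affine.Point.some x y hxy + (Affine.Point.some x y hxy + hE.T) = 0 := by
            rw [← add_assoc]
            exact e1
          exact (neg_eq_of_add_eq_zero_right e2)
        have hx2 : (σ x) ^ 2 = x ^ 2 := by
          rw [← map_pow, hxb]
          exact σ.commutes b
        rcases Int.units_eq_one_or (sg S) with h1 | h1
        · rw [h1]
          push_cast
          rw [one_mul]
          rcases sg_one hE hS2 h1 with h3 | h3
          · rw [h3, add_zero] at hsum
            unfold act at hsum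
            rw [pm_some, Affine.Point.some.injEq] at hsum
            exact hsum.1
          · rw [h3, ← hnegQ] at hsum
            unfold act at hsum
            rw [pm_some, Affine.Point.neg_some, Affine.Point.some.injEq] at hsum
            exact hsum.1
        · rw [h1]
          push_cast
          rcases sq_eq_sq_iff_eq_or_eq_neg.1 hx2 with h3 | h3
          · exfalso
            -- the same `x`-coordinate: `S = 0` or `T`
            have h4 : act (inv_bc K V) σ (Affine.Point.some x y hxy) =
                Affine.Point.some x y hxy ∨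
                act (inv_bc K V) σ (Affine.Point.some x y hxy) =
                -Affine.Point.some x y hxy := by
              unfold act
              rw [pm_some, Affine.Point.neg_some]
              have h5 : (σ y) ^ 2 = y ^ 2 := by
                have e1 := Bas_eqn hE hxy
                have e2 := congrArg σ e1
                rw [map_mul, map_add, map_add, map_pow, map_pow, map_mul, h3] at e2
                have e3 : σ (algebraMap K (AlgebraicClosure K) a) =
                  algebraMap K (AlgebraicClosure K) a := σ.commutes a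
                have e4 : σ (algebraMap K (AlgebraicClosure K) b) =
                  algebraMap K (AlgebraicClosure K) b := σ.commutes b
                rw [e3, e4] at e2
                rw [e2, e1]
              rcases sq_eq_sq_iff_eq_or_eq_neg.1 h5 with h6 | h6
              · left
                rw [Affine.Point.some.injEq]
                exact ⟨h3, h6⟩
              · right
                rw [Affine.Point.some.injEq, Bas_negY hE]
                exact ⟨h3, h6⟩
            have h7 : sg S = 1 := by
              rcases h4 with h5 | h5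
              · have e : S = 0 := by rw [hS, h5, sub_self]
                rw [e, sg_zero]
              · have e : S = hE.T := by
                  rw [hS, h5, hnegQ]
                  abel
                rw [e, sg_T]
            rw [h7] at h1
            exact absurd h1 (by decide)
          · rw [h3]
            ring
      refine ⟨Affine.Point.some x y hxy, Or.inr hQ, hSub, ?_⟩
      intro σ
      have e1 : sg ((f - fun σ => act (inv_bc K V) σ (Affine.Point.some x y hxy) -
          Affine.Point.some x y hxy) σ) = sg (f σ) *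
          sg (act (inv_bc K V) σ (Affine.Point.some x y hxy) - Affine.Point.some x y hxy) := by
        have e3 := hSg.2.2 σ
        have e2 : -(act (inv_bc K V) σ (Affine.Point.some x y hxy) -
            Affine.Point.some x y hxy) = act (inv_bc K V) σ (Affine.Point.some x y hxy) -
            Affine.Point.some x y hxy := neg_eq_of_add_eq_zero_left e3
        rw [Pi.sub_apply, sub_eq_add_neg, e2]
        exact sg_add hE (hf.2.2 σ) e3
      rw [e1]
      have hrx : (r * x) ^ 2 = algebraMap K (AlgebraicClosure K) (b * d) := by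
        rw [mul_pow, hd, hxb, map_mul]
        ring
      have hfix : σ (r * x) = r * x := I1_fix hrx hs' σ
      have h3 : σ (r * x) = ((sg (f σ) * sg (act (inv_bc K V) σ (Affine.Point.some x y hxy) -
          Affine.Point.some x y hxy) : ℤˣ) : ℤ) * (r * x) := by
        rw [map_mul, hs σ, hchar σ]
        push_cast
        ring
      rcases Int.units_eq_one_or (sg (f σ) * sg (act (inv_bc K V) σ (Affine.Point.some x y hxy) -
          Affine.Point.some x y hxy)) with h4 | h4
      · exact h4
      · exfalso
        rw [h4, hfix] at h3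
        push_cast at h3
        exact hneg (r * x) (mul_ne_zero hr hx0) (by linear_combination -h3)
  -- second step
  obtain ⟨hSl, hsg⟩ := hf₁
  obtain ⟨t, ht⟩ : ∃ t : Coch K V, t = f - fun σ => act (inv_bc K V) σ Q₁ - Q₁ := ⟨_, rfl⟩
  rw [← ht] at hSl hsg
  have hft : ∀ σ, f σ = t σ + (act (inv_bc K V) σ Q₁ - Q₁) := by
    intro σ
    rw [ht, Pi.sub_apply]
    abel
  have hv : ∀ σ, t σ = 0 ∨ t σ = hE.T := fun σ => sg_one hE (hSl.2.2 σ) (hsg σ)
  obtain ⟨r, d, hr, hd, hs⟩ := kum_T hE (inv_bc K V) ((isCocycle_iff t).1 hSl.1) hv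
  have hs2 : ∀ σ : AlgebraicClosure K ≃ₐ[K] AlgebraicClosure K, (t σ = 0 ∧ σ r = r) ∨
      (t σ = (h.bc (AlgebraicClosure K)).T ∧ σ r = -r) := by
    intro σ
    rcases hv σ with h3 | h3
    · exact Or.inl ⟨h3, (hs σ).1 h3⟩
    · exact Or.inr ⟨h3, (hs σ).2 h3⟩
  obtain ⟨hF, hI⟩ := loc_b h hSl.2.1 hr hd hs2
  have hd0 : d ≠ 0 := by
    rintro rfl
    rw [map_zero] at hd
    exact hr (pow_eq_zero_iff (two_ne_zero) |>.1 hd)
  rcases H' d hd0 hF hI with ⟨s, hs'⟩ | ⟨s, hs'⟩
  · refine ⟨Q₁, hQ₁, fun σ => ?_⟩
    have h3 : t σ = 0 := by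
      rcases hs2 σ with h4 | h4
      · exact h4.1
      · exfalso
        rw [I1_fix hd hs' σ] at h4
        exact hneg r hr h4.2.symm
    rw [hft, h3, zero_add]
  · -- a square root of the discriminant
    obtain ⟨z, hz⟩ := IsAlgClosed.exists_pow_nat_eq
      (algebraMap K (AlgebraicClosure K) (a ^ 2 - 4 * b)) (n := 2) (by norm_num)
    set α : AlgebraicClosure K := algebraMap K (AlgebraicClosure K) a with hα
    set β : AlgebraicClosure K := algebraMap K (AlgebraicClosure K) b with hβ
    have hz' : z ^ 2 = α ^ 2 - 4 * β := by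
      rw [hz, map_sub, map_mul, map_pow, map_ofNat]
    have hz0 : z ≠ 0 := by
      rintro rfl
      apply hE.hd
      rw [← hz']
      ring
    have he2 : ((-α + z) / 2) * (((-α + z) / 2) ^ 2 + α * ((-α + z) / 2) + β) = 0 := by
      field_simp
      linear_combination (-α + z) * hz'
    have he20 : (-α + z) / 2 ≠ 0 := by
      intro h0
      have h3 : z = α := by
        have := congrArg (fun w => w * 2) h0
        simp only [div_mul_cancel₀ _ h2, zero_mul] at this
        linear_combination this
      apply hE.hb
      rw [h3] at hz'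
      have h4 : (2 : AlgebraicClosure K) * (2 * β) = 0 := by linear_combination hz'
      rcases mul_eq_zero.1 h4 with h5 | h5
      · exact absurd h5 h2
      · rcases mul_eq_zero.1 h5 with h6 | h6
        · exact absurd h6 h2
        · exact h6
    have hns : (V.baseChange (AlgebraicClosure K)).toAffine.Nonsingular ((-α + z) / 2) 0 := by
      rw [Affine.nonsingular_iff, Affine.equation_iff, hE.a₁, hE.a₂, hE.a₃, hE.a₄, hE.a₆]
      refine ⟨by linear_combination -he2, Or.inl ?_⟩
      intro h0
      have h3 : ((-α + z) / 2) * z = 0 := by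
        have h4 : 3 * ((-α + z) / 2) ^ 2 + 2 * α * ((-α + z) / 2) + β = 0 := by
          linear_combination -h0
        have h5 : ((-α + z) / 2) ^ 2 + α * ((-α + z) / 2) + β = 0 :=
          (mul_eq_zero.1 he2).resolve_left he20
        have h6 : ((-α + z) / 2) * (2 * ((-α + z) / 2) + α) = 0 := by
          linear_combination h4 - h5
        have h7 : 2 * ((-α + z) / 2) + α = z := by
          field_simp
          ring
        rw [h7] at h6
        exact h6
      rcases mul_eq_zero.1 h3 with h4 | h4
      · exact he20 h4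
      · exact hz0 h4
    obtain ⟨S, hS⟩ : ∃ S : (V.baseChange (AlgebraicClosure K)).toAffine.Point,
      S = Affine.Point.some _ _ hns := ⟨_, rfl⟩
    have hSS : S + S = 0 := by
      rw [hS]
      apply Affine.Point.add_self_of_Y_eq
      rw [Bas_negY hE, neg_zero]
    have hsgS : ∀ σ, sg (act (inv_bc K V) σ S) = sg S := fun σ => sg_pm _ _ _
    have hact2 : ∀ σ, act (inv_bc K V) σ S + act (inv_bc K V) σ S = 0 := by
      intro σ
      rw [← map_add, hSS, map_zero]
    have hdiff : ∀ σ, act (inv_bc K V) σ S - S = 0 ∨ act (inv_bc K V) σ S - S = hE.T := by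
      intro σ
      have e1 : -S = S := neg_eq_of_add_eq_zero_left hSS
      have e2 : act (inv_bc K V) σ S - S = act (inv_bc K V) σ S + S := by
        rw [sub_eq_add_neg, e1]
      rw [e2]
      apply sg_one hE
      · calc act (inv_bc K V) σ S + S + (act (inv_bc K V) σ S + S) =
            (act (inv_bc K V) σ S + act (inv_bc K V) σ S) + (S + S) := by abel
          _ = 0 := by rw [hact2, hSS, add_zero]
      · rw [sg_add hE (hact2 σ) hSS, hsgS, Int.units_mul_self]
    have hval : ∀ σ, t σ = act (inv_bc K V) σ S - S := by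
      intro σ
      have hrz : (r * z) ^ 2 = algebraMap K (AlgebraicClosure K) ((a ^ 2 - 4 * b) * d) := by
        rw [mul_pow, hd, hz, map_mul]
        ring
      have hfix : σ (r * z) = r * z := I1_fix hrz hs' σ
      have hσS : act (inv_bc K V) σ S - S = 0 ↔ σ z = z := by
        rw [sub_eq_zero, hS]
        unfold act
        rw [pm_some, Affine.Point.some.injEq]
        have e3 : σ α = α := σ.commutes a
        have e4 : (σ : AlgebraicClosure K →+* AlgebraicClosure K) ((-α + z) / 2) =
            (-α + σ z) / 2 := by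
          change σ ((-α + z) / 2) = _
          rw [map_div₀, map_add, map_neg, e3, map_ofNat]
        rw [e4]
        constructor
        · rintro ⟨h3, -⟩
          field_simp at h3
          linear_combination h3
        · intro h3
          rw [h3]
          exact ⟨rfl, map_zero _⟩
      rcases hs2 σ with ⟨h3, h4⟩ | ⟨h3, h4⟩
      · rw [h3]
        symm
        rw [hσS]
        rw [map_mul, h4] at hfix
        exact mul_left_cancel₀ hr hfix
      · rw [h3]
        rcases hdiff σ with h5 | h5
        · exfalso
          rw [hσS] at h5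
          rw [map_mul, h4, h5] at hfix
          exact hneg (r * z) (mul_ne_zero hr hz0) (by linear_combination hfix)
        · exact h5.symm
    refine ⟨S + Q₁, ?_, fun σ => ?_⟩
    · have e1 : S + Q₁ + (S + Q₁) = Q₁ + Q₁ := by
        calc S + Q₁ + (S + Q₁) = (S + S) + (Q₁ + Q₁) := by abel
          _ = Q₁ + Q₁ := by rw [hSS, zero_add]
      rw [e1]
      exact hQ₁
    · rw [hft, hval, map_add]
      abel

/-- The two-primary part of the Tate-Shafarevich group is trivial. -/
theorem con_sha (h : IsTw V a b) (H : Only K a b) (H' : Only K (-2 * a) (a ^ 2 - 4 * b)) :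
    Sha2Trivial K V := by
  have hE := h.bc (AlgebraicClosure K)
  have key : ∀ f, IsCocycle K V f → IsLocTriv K V f → IsCobound K V (fun σ => f σ + f σ) →
      IsCobound K V f := by
    intro f hf hl h2
    obtain ⟨Q', hQ'⟩ := (isCobound_iff _).1 h2
    obtain ⟨Q, hQ⟩ := exists_two hE Q'
    have hB : (fun σ => act (inv_bc K V) σ Q - Q : Coch K V) ∈ ShaZ K V :=
      shaB_le K V ((isCobound_iff _).2 ⟨Q, fun σ => rfl⟩)
    obtain ⟨t, ht⟩ : ∃ t : Coch K V, t = f - (fun σ => act (inv_bc K V) σ Q - Q) := ⟨_, rfl⟩
    have htZ : t ∈ ShaZ K V := by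
      rw [ht]
      exact (ShaZ K V).sub_mem (x := f) ⟨hf, hl⟩ hB
    have ht2 : ∀ σ, t σ + t σ = 0 := by
      intro σ
      have e1 : t σ = f σ - (act (inv_bc K V) σ Q - Q) := by rw [ht]; rfl
      have e2 := hQ' σ
      rw [e1]
      have e3 : f σ - (act (inv_bc K V) σ Q - Q) + (f σ - (act (inv_bc K V) σ Q - Q)) =
          (f σ + f σ) - ((act (inv_bc K V) σ Q + act (inv_bc K V) σ Q) - (Q + Q)) := by abel
      rw [e3, ← map_add, hQ, e2, sub_self]
    obtain ⟨R, -, hR⟩ := con_cob h H H' (f := t) ⟨htZ.1, htZ.2, ht2⟩
    rw [isCobound_iff]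
    refine ⟨R + Q, fun σ => ?_⟩
    have e1 : t σ = f σ - (act (inv_bc K V) σ Q - Q) := by rw [ht]; rfl
    have e2 : f σ = t σ + (act (inv_bc K V) σ Q - Q) := by rw [e1]; abel
    rw [e2, hR, map_add]
    abel
  rintro f hf hl ⟨m, hm⟩
  have hZ : ∀ m : ℕ, (fun σ => m • f σ : Coch K V) ∈ ShaZ K V := fun m =>
    (ShaZ K V).nsmul_mem (x := f) ⟨hf, hl⟩ m
  induction m with
  | zero => simpa using hm
  | succ m ih =>
    apply ih
    obtain ⟨h1, h2⟩ := hZ (2 ^ m)
    apply key _ h1 h2
    have : (fun σ => (2 ^ m) • f σ + (2 ^ m) • f σ) = (fun σ => (2 ^ (m + 1)) • f σ) := by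
      funext σ
      rw [← two_nsmul, ← mul_nsmul, pow_succ]
    rw [this]
    exact hm

theorem isElliptic_of_isTw {k : Type*} [Field k] {W : WeierstrassCurve k} {a b : k}
    (h : IsTw W a b) : W.IsElliptic := by
  constructor
  have h2 := h.two
  have e : W.Δ = 2 ^ 4 * (b ^ 2 * (a ^ 2 - 4 * b)) := by
    rw [WeierstrassCurve.Δ, WeierstrassCurve.b₂, WeierstrassCurve.b₄, WeierstrassCurve.b₆,
      WeierstrassCurve.b₈, h.a₁, h.a₂, h.a₃, h.a₄, h.a₆]
    ring
  rw [e]
  exact (mul_ne_zero (pow_ne_zero 4 h2) (mul_ne_zero (pow_ne_zero 2 h.hb) h.hd)).isUnit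

/-- Every rational point is zero or `T` plus a double. -/
theorem con_point (h : IsTw V a b) (H : Only K a b) (H' : Only K (-2 * a) (a ^ 2 - 4 * b))
    (P : V.toAffine.Point) : ∃ R : V.toAffine.Point, P = R + R ∨ P = h.T + (R + R) := by
  have hE := h.bc (AlgebraicClosure K)
  have hV : V.map (algebraMap K (AlgebraicClosure K)) = V.baseChange (AlgebraicClosure K) := rfl
  obtain ⟨S, hS⟩ := exists_two hE (pm (algebraMap K (AlgebraicClosure K)) hV P)
  have hfix : ∀ σ, act (inv_bc K V) σ (S + S) = S + S := by
    intro σ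
    rw [hS]
    unfold act
    rw [pm_pm]
    exact pm_congr _ _ (fun x => σ.commutes x) _
  have h3 : (fun σ => act (inv_bc K V) σ S - S : Coch K V) ∈ ShaZ K V :=
    shaB_le K V ((isCobound_iff _).2 ⟨S, fun σ => rfl⟩)
  obtain ⟨Q, hQ2, hQ⟩ := con_cob h H H' (f := fun σ => act (inv_bc K V) σ S - S)
    ⟨h3.1, h3.2, fun σ => by
      have h4 := hfix σ
      rw [map_add] at h4
      calc act (inv_bc K V) σ S - S + (act (inv_bc K V) σ S - S) =
          (act (inv_bc K V) σ S + act (inv_bc K V) σ S) - (S + S) := by abel
        _ = 0 := by rw [h4, sub_self]⟩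
  obtain ⟨R, hR⟩ := pm_descent (V := V) hV (inv_bc K V) (S - Q) (by
    intro σ
    have h4 := hQ σ
    rw [map_sub]
    have h5 : act (inv_bc K V) σ S = act (inv_bc K V) σ Q - Q + S := by
      rw [← h4]
      abel
    rw [h5]
    abel)
  refine ⟨R, ?_⟩
  have h6 : pm (algebraMap K (AlgebraicClosure K)) hV P =
      (Q + Q) + pm (algebraMap K (AlgebraicClosure K)) hV (R + R) := by
    rw [map_add, hR, ← hS]
    abel
  rcases hQ2 with h7 | h7
  · left
    rw [h7, zero_add] at h6
    exact pm_injective (algebraMap K (AlgebraicClosure K)) hV h6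
  · right
    rw [h7] at h6
    apply pm_injective (algebraMap K (AlgebraicClosure K)) hV
    have h8 : pm (algebraMap K (AlgebraicClosure K)) hV h.T = hE.T := by
      unfold IsTw.T
      rw [pm_some, Affine.Point.some.injEq]
      exact ⟨map_zero _, map_zero _⟩
    rw [h6, map_add _ h.T (R + R), h8]

/-- The Mordell-Weil group is finite. -/
theorem con_finite (h : IsTw V a b) (H : Only K a b) (H' : Only K (-2 * a) (a ^ 2 - 4 * b)) :
    Finite V.toAffine.Point := by
  have hell := isElliptic_of_isTw h
  let A : AddSubgroup V.toAffine.Point := (nsmulAddMonoidHom 2 : V.toAffine.Point →+ _).ker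
  have hTT : h.T + h.T = 0 := T_add_T h
  obtain ⟨m, hm, hP⟩ := odd_exponent A.subtype (Pool.Agent.H11.mordell_weil V) (by
    intro P
    obtain ⟨R, hR | hR⟩ := con_point h H H' P
    · refine ⟨0, R, ?_⟩
      rw [map_zero, zero_add]
      exact hR
    · refine ⟨⟨h.T, ?_⟩, R, hR⟩
      rw [AddMonoidHom.mem_ker]
      change 2 • h.T = 0
      rw [two_nsmul, hTT])
  refine finite_of_torsion (K := K) (V := V) (m := 2 * m)
    (by rintro h0; obtain ⟨k, hk⟩ := hm; omega) fun P => ?_
  obtain ⟨t, ht⟩ := hP P
  rw [mul_nsmul', ht]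
  have h2 := t.2
  rw [AddMonoidHom.mem_ker] at h2
  exact h2

end

end H86TL
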