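import Pool.Agent.H38.T1.Tw
import Pool.Agent.H86.TL.Cob
import Pool.Agent.H10.Cong

/-!
Block L of T1: the conclusion and the descent to subfields of odd degree.
-/

set_option autoImplicit false
open scoped Classical

open WithZero NumberField IsDedekindDomain H38RT H73IS H38T1 Pool.Agent.H10

namespace H86TL

variable {K : Type} [Field K] [NumberField K]

theorem isTw_mk {k : Type*} [Field k] {A B : k} (hB : B ≠ 0) (hD : A ^ 2 - 4 * B ≠ 0)
    (h2 : (2 : k) ≠ 0) : IsTw (⟨0, A, 0, B, 0⟩ : WeierstrassCurve k) A B :=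
  ⟨rfl, rfl, rfl, rfl, rfl, hB, hD, h2⟩

theorem triv_of_only {A B : K} (hB : B ≠ 0) (hD : A ^ 2 - 4 * B ≠ 0) (H : Only K A B)
    (H' : Only K (-2 * A) (A ^ 2 - 4 * B)) : Triv K A B :=
  ⟨con_sha (isTw_mk hB hD two_ne_zero) H H', con_finite (isTw_mk hB hD two_ne_zero) H H'⟩

theorem Only.dual {A B : K} (H : Only K A B) :
    Only K (-2 * (-2 * A)) ((-2 * A) ^ 2 - 4 * (A ^ 2 - 4 * B)) := by
  have key : ∀ {k : Type} [Field k] [CharZero k] {x y d : k},
      QPt (-2 * (-2 * x)) ((-2 * x) ^ 2 - 4 * (x ^ 2 - 4 * y)) d → QPt x y d := by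
    intro k _ _ x y d h
    have e1 : -2 * (-2 * x) = 2 ^ 2 * x := by ring
    have e2 : (-2 * x) ^ 2 - 4 * (x ^ 2 - 4 * y) = 2 ^ 4 * y := by ring
    rw [e1, e2] at h
    exact (QPt.scale two_ne_zero).1 h
  intro d hd hF hI
  have h1 := H d hd (by
    intro v
    have h2 := hF v
    have hch : CharZero (v.adicCompletion K) := charZero_of_alg (K := K)
    simp only [map_mul, map_sub, map_pow, map_neg, map_ofNat] at h2
    exact key h2) (by
    intro v
    have h2 := hI v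
    have hch : CharZero v.Completion := charZero_of_alg (K := K)
    simp only [map_mul, map_sub, map_pow, map_neg, map_ofNat] at h2
    exact key h2)
  rcases h1 with h1 | h1
  · exact Or.inl h1
  · right
    obtain ⟨s, hs⟩ := h1
    exact ⟨4 * s, by linear_combination 16 * hs⟩

theorem concl {A B : K} (hB : B ≠ 0) (hD : A ^ 2 - 4 * B ≠ 0)
    (h1 : ∀ d : K, d ≠ 0 → FinQ K A B d → InfQ K A B d → IsSquare d ∨ IsSquare (d * B))
    (h2 : ∀ d : K, d ≠ 0 → FinQ K (-2 * A) (A ^ 2 - 4 * B) d → InfQ K (-2 * A) (A ^ 2 - 4 * B) d →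
      IsSquare d ∨ IsSquare (d * (A ^ 2 - 4 * B))) :
    Triv K A B ∧ Triv K (-2 * A) (A ^ 2 - 4 * B) := by
  have H : Only K A B := by
    intro d hd hF hI
    rw [mul_comm B d]
    exact h1 d hd hF hI
  have H' : Only K (-2 * A) (A ^ 2 - 4 * B) := by
    intro d hd hF hI
    rw [mul_comm (A ^ 2 - 4 * B) d]
    exact h2 d hd hF hI
  refine ⟨triv_of_only hB hD H H', triv_of_only hD ?_ H' H.dual⟩
  have e : (-2 * A) ^ 2 - 4 * (A ^ 2 - 4 * B) = 16 * B := by ring
  rw [e]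
  exact mul_ne_zero (by norm_num) hB

theorem descend {K₀ : Type} [Field K₀] [NumberField K₀] [Algebra K₀ K]
    (hodd : Odd (Module.finrank K₀ K)) {A B : K₀}
    (h : Triv K (algebraMap K₀ K A) (algebraMap K₀ K B)) : Triv K₀ A B := by
  have hV : (⟨0, A, 0, B, 0⟩ : WeierstrassCurve K₀).map (algebraMap K₀ K) =
      (⟨0, algebraMap K₀ K A, 0, algebraMap K₀ K B, 0⟩ : WeierstrassCurve K) := by
    change (⟨algebraMap K₀ K 0, algebraMap K₀ K A, algebraMap K₀ K 0, algebraMap K₀ K B,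
      algebraMap K₀ K 0⟩ : WeierstrassCurve K) = _
    rw [map_zero]
  refine ⟨?_, ?_⟩
  · intro g hg hl hm
    let G : ShaZ K₀ (⟨0, A, 0, B, 0⟩ : WeierstrassCurve K₀) := ⟨g, hg, hl⟩
    obtain ⟨m, hm'⟩ := (mk_mem_iff' G).mpr hm
    obtain ⟨f, hf⟩ := Sha.mk_surjective (Sha.res hV (Sha.mk G))
    have h1 : ∃ m : ℕ, 2 ^ m • Sha.mk f = 0 := ⟨m, by rw [hf, ← map_nsmul, hm', map_zero]⟩
    have h2 : IsCobound K _ f.1 := h.1 f.1 f.2.1 f.2.2 ((mk_mem_iff' f).mp h1)
    have h3 : Sha.mk f = 0 := (Sha.mk_eq_zero f).mpr h2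
    have h4 := Sha.cor_res hV (Sha.mk G)
    rw [← hf, h3, map_zero] at h4
    have h5 : Sha.mk G = 0 := by
      obtain ⟨x, y, hxy⟩ := (Nat.isCoprime_iff_coprime (m := 2 ^ m)
        (n := Module.finrank K₀ K)).2 (Nat.Coprime.pow_left m (Nat.coprime_two_left.2 hodd))
      have h6 : (1 : ℤ) • Sha.mk G = 0 := by
        rw [← hxy, add_smul, mul_smul, mul_smul, natCast_zsmul, natCast_zsmul, hm', ← h4, smul_zero,
          smul_zero, add_zero]
      rwa [one_smul] at h6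
    exact (Sha.mk_eq_zero G).mp h5
  · have := h.2
    exact Finite.of_injective _ (pm_injective (algebraMap K₀ K) hV)

end H86TL
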