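import Pool.Agent.H86.TL.Ly

/-!
Block L of T1: the everywhere soluble classes are in the Selmer groups.
-/

set_option autoImplicit false
open scoped Classical

open WithZero NumberField IsDedekindDomain H38RT H38T1 Pool.Agent.H10 H73IS

namespace H86TL

variable {K : Type} [Field K] [NumberField K]

theorem nr_spec {q : ℕ} (h : ∃ r : ℤ, ¬ SqMod q r) : ¬ SqMod q (nr q) := by
  unfold nr
  rw [dif_pos h]
  exact h.choose_spec

theorem nr_loc [IsGalois ℚ K] (hodd : Odd (Module.finrank ℚ K)) {v : HeightOneSpectrum (𝓞 K)}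
    (h2 : rp v ≠ 2) (h : ∃ r : ℤ, ¬ SqMod (rp v) r) :
    eo v (sc ((nr (rp v) : ℤ) : K)) = 0 ∧ la v (sc ((nr (rp v) : ℤ) : K)) = 1 := by
  have h3 := nr_spec h
  have h4 : ¬ (rp v : ℤ) ∣ nr (rp v) := by
    intro h5
    exact h3 ⟨0, by simpa using h5⟩
  apply la_of_nonsq v (two_notMem h2)
  · rw [← valued_algebraMap, alg_int]
    exact val_int_one v h4
  · rw [alg_int]
    exact not_sq_of_nonres hodd h2 h3

theorem same_of_even [IsGalois ℚ K] (hodd : Odd (Module.finrank ℚ K))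
    {v : HeightOneSpectrum (𝓞 K)} (h2 : rp v ≠ 2) (h : ∃ r : ℤ, ¬ SqMod (rp v) r) {c : SC K}
    (hc : eo v c = 0) : (eo v c = 0 ∧ la v c = 0) ∨
    (eo v c = eo v (sc ((nr (rp v) : ℤ) : K)) ∧ la v c = la v (sc ((nr (rp v) : ℤ) : K))) := by
  obtain ⟨h3, h4⟩ := nr_loc hodd h2 h
  rw [h3, h4]
  have key : ∀ x : ZMod 2, x = 0 ∨ x = 1 := by decide
  rcases key (la v c) with h5 | h5
  · exact Or.inl ⟨hc, h5⟩
  · exact Or.inr ⟨hc, h5⟩

/-- The everywhere soluble classes, in both forms. -/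
theorem E_form {a b n : ℤ} {d : K} (h : FinQ K ((a * n : ℤ) : K) ((b * n ^ 2 : ℤ) : K) d)
    (v : HeightOneSpectrum (𝓞 K)) :
    QPt (((a : ℤ) : v.adicCompletion K) * ((n : ℤ) : v.adicCompletion K))
      (((b : ℤ) : v.adicCompletion K) * ((n : ℤ) : v.adicCompletion K) ^ 2)
      (algebraMap K (v.adicCompletion K) d) := by
  have h1 := qF h v
  push_cast at h1
  exact h1

theorem E_dual {a b n : ℤ} {d : K} (h : FinQ K ((a * n : ℤ) : K) ((b * n ^ 2 : ℤ) : K) d)
    (v : HeightOneSpectrum (𝓞 K)) :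
    QPt (-2 * (((-2 * a : ℤ) : ℤ) : v.adicCompletion K) * ((n : ℤ) : v.adicCompletion K))
      (((((-2 * a : ℤ) : ℤ) : v.adicCompletion K) ^ 2 -
        4 * (((a ^ 2 - 4 * b : ℤ) : ℤ) : v.adicCompletion K)) *
        ((n : ℤ) : v.adicCompletion K) ^ 2)
      (algebraMap K (v.adicCompletion K) d) := by
  have h1 := E_form h v
  have hch : CharZero (v.adicCompletion K) := charZero_of_alg (K := K)
  rw [← QPt.scale (r := (2 : v.adicCompletion K)) two_ne_zero] at h1
  convert h1 using 1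
  · push_cast
    ring
  · push_cast
    ring

theorem E'_form {a b n : ℤ} {d : K}
    (h : FinQ K ((-2 * (a * n) : ℤ) : K) (((a ^ 2 - 4 * b) * n ^ 2 : ℤ) : K) d)
    (v : HeightOneSpectrum (𝓞 K)) :
    QPt ((((-2 * a : ℤ) : ℤ) : v.adicCompletion K) * ((n : ℤ) : v.adicCompletion K))
      ((((a ^ 2 - 4 * b : ℤ) : ℤ) : v.adicCompletion K) * ((n : ℤ) : v.adicCompletion K) ^ 2)
      (algebraMap K (v.adicCompletion K) d) := by
  have h1 := qF h v
  convert h1 using 1
  · push_cast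
    ring
  · push_cast
    ring

theorem E'_form2 {a b n : ℤ} {d : K}
    (h : FinQ K ((-2 * (a * n) : ℤ) : K) (((a ^ 2 - 4 * b) * n ^ 2 : ℤ) : K) d)
    (v : HeightOneSpectrum (𝓞 K)) :
    QPt (-2 * ((a : ℤ) : v.adicCompletion K) * ((n : ℤ) : v.adicCompletion K))
      ((((a : ℤ) : v.adicCompletion K) ^ 2 - 4 * ((b : ℤ) : v.adicCompletion K)) *
        ((n : ℤ) : v.adicCompletion K) ^ 2)
      (algebraMap K (v.adicCompletion K) d) := by
  have h1 := qF h v
  convert h1 using 1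
  · push_cast
    ring
  · push_cast
    ring

/-- Membership in the set of places of a local datum. -/
theorem rp_of_ov {Q : Set ℕ} (hQ : ∀ q ∈ Q, q.Prime) {v : HeightOneSpectrum (𝓞 K)}
    (h : v ∈ ov K Q) : rp v ∈ Q := by
  obtain ⟨q, hq, hv⟩ := h
  rw [mem_iff_eq (hQ q hq)] at hv
  rw [hv]
  exact hq

theorem ov_of_rp {Q : Set ℕ} {v : HeightOneSpectrum (𝓞 K)} (h : rp v ∈ Q) : v ∈ ov K Q :=
  ⟨rp v, h, rp_mem v⟩

/-- The two-adic data. -/
theorem two_data {a b n : ℤ} (hab : Hyp a b) (h8 : (a * n) % 8 = 5)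
    {v : HeightOneSpectrum (𝓞 K)} (h2 : rp v = 2) :
    Valued.v (2 : v.adicCompletion K) = exp (-(v.asIdeal.ramificationIdx ℤ : ℤ)) ∧
    (0 : ℤ) < v.asIdeal.ramificationIdx ℤ ∧
    Valued.v (((a * n : ℤ) : v.adicCompletion K) - 5) < Valued.v (4 : v.adicCompletion K) ∧
    (∃ k : ℕ, log (Valued.v ((b * n ^ 2 : ℤ) : v.adicCompletion K)) =
      -((4 + 2 * (k : ℤ)) * (v.asIdeal.ramificationIdx ℤ : ℤ))) ∧
    Valued.v ((b * n ^ 2 : ℤ) : v.adicCompletion K) ≤ Valued.v (16 : v.adicCompletion K) := by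
  have hV2 : Valued.v (2 : v.adicCompletion K) = exp (-(v.asIdeal.ramificationIdx ℤ : ℤ)) := by
    have h3 := val_rp v
    rw [h2] at h3
    have h4 : Valued.v (2 : v.adicCompletion K) = v.valuation K 2 := valued_ofNat v 2
    rw [h4]
    exact_mod_cast h3
  have hlt : Valued.v (2 : v.adicCompletion K) < 1 := by
    have h3 := (val_int_lt v 2).2 (by rw [h2]; exact dvd_rfl)
    exact_mod_cast h3
  have he : (0 : ℤ) < v.asIdeal.ramificationIdx ℤ := by
    rw [hV2, ← exp_zero, exp_lt_exp] at hlt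
    omega
  have h20 : (2 : v.adicCompletion K) ≠ 0 := by
    intro h0
    rw [h0, map_zero] at hV2
    exact exp_ne_zero hV2.symm
  have hn2 : ¬ (rp v : ℤ) ∣ n := by
    rw [h2]
    intro h3
    have h4 : ((2 : ℕ) : ℤ) ∣ a * n := h3.mul_left a
    push_cast at h4
    omega
  have hnV := val_int_one v hn2
  obtain ⟨k, b₀, hb, hb0⟩ := hab.b4
  have hb02 : ¬ (rp v : ℤ) ∣ b₀ := by
    rw [h2]
    intro h3
    push_cast at h3
    omega
  have hb0V := val_int_one v hb02
  have hbV : Valued.v ((b * n ^ 2 : ℤ) : v.adicCompletion K) =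
      Valued.v (2 : v.adicCompletion K) ^ (2 * (k + 2)) := by
    rw [hb]
    push_cast
    rw [map_mul, map_mul, map_pow, map_pow, hnV, hb0V, one_pow, mul_one, mul_one, Tq_four, ← sq,
      ← pow_mul]
  refine ⟨hV2, he, ?_, ⟨k, ?_⟩, ?_⟩
  · obtain ⟨m, hm⟩ : ∃ m : ℤ, a * n = 5 + 8 * m := ⟨a * n / 8, by omega⟩
    rw [hm]
    push_cast
    rw [show (5 : v.adicCompletion K) + 8 * (m : v.adicCompletion K) - 5 =
      4 * (2 * (m : v.adicCompletion K)) by ring, map_mul]
    have h3 : Valued.v (2 * (m : v.adicCompletion K)) < 1 := by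
      rw [map_mul]
      exact mul_lt_one_of_lt_of_le hlt (val_int_le v m)
    have h40 : (4 : v.adicCompletion K) ≠ 0 := by
      rw [show (4 : v.adicCompletion K) = 2 * 2 by norm_num]
      exact mul_ne_zero h20 h20
    calc _ < Valued.v (4 : v.adicCompletion K) * 1 := mul_lt_mul_of_pos_left h3 (vpos h40)
      _ = _ := mul_one _
  · rw [hbV, log_pow, hV2, log_exp, nsmul_eq_mul]
    push_cast
    ring
  · rw [hbV, show (16 : v.adicCompletion K) = 2 ^ 4 by norm_num, map_pow]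
    exact pow_le_pow_right_of_le_one' hlt.le (by omega)

/-- The real places. -/
theorem si_of_inf {A B : ℤ} (hpos : RPos A B) {d : K} (hd : d ≠ 0)
    (hi : InfQ K (A : K) (B : K) d) (w : K →+* ℝ) : si w (sc d) = 0 := by
  obtain ⟨u, ψ, hψ⟩ := exists_completion w
  have h1 := (hi u).map ψ
  rw [hψ, hψ, hψ, map_intCast, map_intCast] at h1
  have h2 := pos_of_qpt hpos ((map_ne_zero w).2 hd) h1
  rw [si_sc w hd]
  unfold sw
  rw [if_neg (not_lt.2 h2.le)]

theorem loc_X [IsGalois ℚ K] (hodd : Odd (Module.finrank ℚ K)) {a b n : ℤ} (hab : Hyp a b)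
    {Pp Pp' : Finset ℕ} {τ : Bool} (hn : TwistOK a b n Pp Pp' τ) (hdj : Disjoint Pp Pp') {d : K}
    (hd : d ≠ 0) (hf : FinQ K ((a * n : ℤ) : K) ((b * n ^ 2 : ℤ) : K) d)
    (hi : InfQ K ((a * n : ℤ) : K) ((b * n ^ 2 : ℤ) : K) d) : sc d ∈ XX (LDof K a b Pp Pp' τ) := by
  obtain ⟨hb0, ha0, hD0⟩ := hyp_ne hab
  have hn0 := hn.sqf.ne_zero
  have hdF : ∀ v : HeightOneSpectrum (𝓞 K), algebraMap K (v.adicCompletion K) d ≠ 0 := fun v =>
    (map_ne_zero (algebraMap K (v.adicCompletion K))).2 hd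
  refine ⟨?_, ?_, ?_, ?_⟩
  · intro v hv hv'
    have hq := rp_prime v
    by_cases h2 : rp v = 2
    · obtain ⟨hV2, he, hA, ⟨k, hk⟩, -⟩ := two_data (n := n) hab hn.two h2
      have h3 := qF hf v
      apply eo_of_even v hd
      have h4 : ∀ x : v.adicCompletion K, Valued.v x < Valued.v (4 : v.adicCompletion K) →
          IsSquare (1 + x) := fun x hx => isSquare_one_add two_ne_zero hx
      exact loc_two h4 he hV2 (five_not_sq hodd h2) hA hk (hdF v) h3
    · have hbD : ¬ (rp v : ℤ) ∣ b * (a ^ 2 - 4 * b) := by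
        intro h3
        exact hv (ov_of_rp ⟨hq, h2, h3⟩)
      have hb : ¬ (rp v : ℤ) ∣ b := fun h => hbD (h.mul_right _)
      have hD : ¬ (rp v : ℤ) ∣ a ^ 2 - 4 * b := fun h => hbD (h.mul_left _)
      by_cases hqn : (rp v : ℤ) ∣ n
      · rcases hn.pr (rp v) hq hqn hbD with ⟨-, -, h4⟩ | ⟨h3, -, -⟩ | ⟨-, -, -, h4⟩
        · exact (P_X hodd h2 hb hD h4 hn.sqf hqn hd (E_form hf v)).1
        · exact absurd (ov_of_rp (by exact_mod_cast h3)) hv'
        · exact (P_X hodd h2 hb hD h4 hn.sqf hqn hd (E_form hf v)).1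
      · exact unit_X hb hqn hd (E_form hf v)
  · intro v hv
    have hq := rp_prime v
    have hS : rp v ∈ {q : ℕ | q.Prime ∧ q ≠ 2 ∧ (q : ℤ) ∣ b * (a ^ 2 - 4 * b)} :=
      rp_of_ov (fun q hq => hq.1) hv
    obtain ⟨-, h2, hbD⟩ := hS
    have hqZ : Prime ((rp v : ℕ) : ℤ) := Nat.prime_iff_prime_int.1 hq
    change tp v (sc d) (sc ((gI a b (rp v) : ℤ) : K)) = 0
    by_cases hb : (rp v : ℤ) ∣ b
    · by_cases ha : (rp v : ℤ) ∣ a
      · have h3 := mini_val hab hq ha hb
        have h4 : gI a b (rp v) = -b := by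
          unfold gI
          rw [if_pos hb, if_neg (by rw [h3]; decide)]
        rw [h4]
        exact III_X hodd hab h2 ha hb (hn.three _ hq h2 ha hb) hd (E_form hf v)
      · by_cases he : Even (padicValInt (rp v) b)
        · obtain ⟨h3, h4⟩ := hn.bev _ hq h2 hb ha he
          have h5 : gI a b (rp v) = nr (rp v) := by
            unfold gI
            rw [if_pos hb, if_pos he]
          rw [h5]
          exact tp_zero_unit v (Me_X hodd h2 hb0 ha hb he h3 h4 hd (E_form hf v))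
            (nr_loc hodd h2 ⟨_, h4⟩).1
        · obtain ⟨u, b', k, h3, h4, h5, h6⟩ := hn.bod _ hq h2 hb ha (Nat.not_even_iff_odd.1 he)
          have h7 : gI a b (rp v) = -b := by
            unfold gI
            rw [if_pos hb, if_neg he]
          rw [h7]
          rcases Mo_X hodd h2 hb0 ha h3 h4 h5 h6 hd (E_form hf v) with ⟨h8, h9⟩ | ⟨h8, h9⟩
          · exact tp_zero_left v h8 h9
          · rw [Int.cast_neg]
            exact tp_same v h8 h9 (tp_neg v (oddP_of h2) (by exact_mod_cast hb0))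
    · have hD : (rp v : ℤ) ∣ a ^ 2 - 4 * b := (hqZ.dvd_or_dvd hbD).resolve_left hb
      have ha : ¬ (rp v : ℤ) ∣ -2 * a := by
        intro h3
        have h4 : (rp v : ℤ) ∣ a := by
          rcases hqZ.dvd_or_dvd h3 with h5 | h5
          · rw [Int.dvd_neg] at h5
            exfalso
            have h6 : rp v ∣ 2 := by exact_mod_cast h5
            exact h2 ((Nat.prime_dvd_prime_iff_eq hq Nat.prime_two).1 h6)
          · exact h5
        have h5 : (rp v : ℤ) ∣ 4 * b := by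
          have h6 : (rp v : ℤ) ∣ a * a - (a ^ 2 - 4 * b) := dvd_sub (h4.mul_right a) hD
          rwa [show a * a - (a ^ 2 - 4 * b) = 4 * b by ring] at h6
        rcases hqZ.dvd_or_dvd h5 with h6 | h6
        · have h7 : rp v ∣ 2 ^ 2 := by exact_mod_cast h6
          exact h2 ((Nat.prime_dvd_prime_iff_eq hq Nat.prime_two).1 (hq.dvd_of_dvd_pow h7))
        · exact hb h6
      by_cases he : Even (padicValInt (rp v) (a ^ 2 - 4 * b))
      · obtain ⟨h3, h4⟩ := hn.dev _ hq h2 hD hb he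
        have h5 : gI a b (rp v) = nr (rp v) := by
          unfold gI
          rw [if_neg hb, if_pos he]
        rw [h5]
        exact tp_zero_unit v (unit_X hb h3 hd (E_form hf v)) (nr_loc hodd h2 ⟨_, h4⟩).1
      · obtain ⟨u, d', k, h3, h4, h5, h6⟩ := hn.dod _ hq h2 hD hb (Nat.not_even_iff_odd.1 he)
        have h7 : gI a b (rp v) = a ^ 2 - 4 * b := by
          unfold gI
          rw [if_neg hb, if_neg he]
        rw [h7]
        have h8 : SqMod (rp v) (-(-2 * a * u * d')) := by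
          rw [show -(-2 * a * u * d') = 2 * a * u * d' by ring]
          exact h6
        rcases Mo_X' hodd h2 hD0 ha h3 h4 h5 h8 hd (E_dual hf v) with ⟨h8, h9⟩ | ⟨h8, h9⟩
        · exact tp_zero_left v h8 h9
        · refine tp_same v h8 h9 ?_
          have h10 := tp_neg (K := K) v (oddP_of h2) (x := ((-(a ^ 2 - 4 * b) : ℤ) : K)) (by
            exact_mod_cast neg_ne_zero.2 hD0)
          rw [← Int.cast_neg, neg_neg] at h10
          exact h10
  · intro v hv
    have hq := rp_prime v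
    have hS : rp v ∈ (Pp : Set ℕ) := rp_of_ov (fun q hq => (hn.pp q hq).1) hv
    obtain ⟨-, hqn, h2bD⟩ := hn.pp (rp v) hS
    have h2 : rp v ≠ 2 := by
      intro h3
      apply h2bD
      rw [h3]
      exact ⟨b * (a ^ 2 - 4 * b), by push_cast; ring⟩
    have hbD : ¬ (rp v : ℤ) ∣ b * (a ^ 2 - 4 * b) := fun h => h2bD (h.mul_left 2)
    have hb : ¬ (rp v : ℤ) ∣ b := fun h => hbD (h.mul_right _)
    have hD : ¬ (rp v : ℤ) ∣ a ^ 2 - 4 * b := fun h => hbD (h.mul_left _)
    rcases hn.pr (rp v) hq hqn hbD with ⟨-, h3, h4⟩ | ⟨h3, -, -⟩ | ⟨h3, -, -, -⟩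
    · exact (P_X hodd h2 hb hD h4 hn.sqf hqn hd (E_form hf v)).2 h3
    · exact absurd h3 (Finset.disjoint_left.1 hdj hS)
    · exact absurd hS h3
  · intro hτ w
    apply si_of_inf ?_ hd hi
    have hn2 : 0 < n ^ 2 := by positivity
    rcases hn.t0 hτ with h | ⟨h3, h4, h5⟩
    · left
      nlinarith
    · right
      exact ⟨by positivity, h5⟩

theorem loc_X' [IsGalois ℚ K] (hodd : Odd (Module.finrank ℚ K)) {a b n : ℤ} (hab : Hyp a b)
    {Pp Pp' : Finset ℕ} {τ : Bool} (hn : TwistOK a b n Pp Pp' τ) (hdj : Disjoint Pp Pp') {d : K}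
    (hd : d ≠ 0) (hf : FinQ K ((-2 * (a * n) : ℤ) : K) (((a ^ 2 - 4 * b) * n ^ 2 : ℤ) : K) d)
    (hi : InfQ K ((-2 * (a * n) : ℤ) : K) (((a ^ 2 - 4 * b) * n ^ 2 : ℤ) : K) d) :
    sc d ∈ XX' (LDof K a b Pp Pp' τ) := by
  obtain ⟨hb0, ha0, hD0⟩ := hyp_ne hab
  have hn0 := hn.sqf.ne_zero
  have hdF : ∀ v : HeightOneSpectrum (𝓞 K), algebraMap K (v.adicCompletion K) d ≠ 0 := fun v =>
    (map_ne_zero (algebraMap K (v.adicCompletion K))).2 hd
  have hpri : ∀ v : HeightOneSpectrum (𝓞 K), rp v = 2 →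
      Prm (Valued.v : Valuation (v.adicCompletion K) (WithZero (Multiplicative ℤ)))
        (algebraMap K (v.adicCompletion K) d) := by
    intro v h2
    obtain ⟨hV2, he, hA, -, hB⟩ := two_data (n := n) hab hn.two h2
    have hch : CharZero (v.adicCompletion K) := charZero_of_alg (K := K)
    have hlt : Valued.v (2 : v.adicCompletion K) < 1 := by
      rw [hV2, ← exp_zero, exp_lt_exp]
      omega
    have h3 := qF hf v
    have h4 : QPt (-2 * ((a * n : ℤ) : v.adicCompletion K))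
        (((a * n : ℤ) : v.adicCompletion K) ^ 2 - 4 * ((b * n ^ 2 : ℤ) : v.adicCompletion K))
        (algebraMap K (v.adicCompletion K) d) := by
      convert h3 using 1
      · push_cast
        ring
      · push_cast
        ring
    refine loc_two' two_ne_zero hlt ?_ ?_ hB ?_ (hdF v) h4
    · rw [show ((a * n : ℤ) : v.adicCompletion K) - 1 =
        (((a * n : ℤ) : v.adicCompletion K) - 5) + 4 by ring]
      exact (Valuation.map_add _ _ _).trans (max_le hA.le le_rfl)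
    · exact ne_zero_int v (mul_ne_zero hb0 (pow_ne_zero 2 hn0))
    · have h5 : (a * n) ^ 2 - 4 * (b * n ^ 2) ≠ 0 := by
        rw [show (a * n) ^ 2 - 4 * (b * n ^ 2) = (a ^ 2 - 4 * b) * n ^ 2 by ring]
        exact mul_ne_zero hD0 (pow_ne_zero 2 hn0)
      have h6 := ne_zero_int v h5
      push_cast at h6 ⊢
      exact h6
  have ha2 : ∀ v : HeightOneSpectrum (𝓞 K), rp v ≠ 2 → ¬ (rp v : ℤ) ∣ a →
      ¬ (rp v : ℤ) ∣ -2 * a := by
    intro v h2 ha h3
    have hqZ : Prime ((rp v : ℕ) : ℤ) := Nat.prime_iff_prime_int.1 (rp_prime v)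
    rcases hqZ.dvd_or_dvd h3 with h5 | h5
    · rw [Int.dvd_neg] at h5
      have h6 : rp v ∣ 2 := by exact_mod_cast h5
      exact h2 ((Nat.prime_dvd_prime_iff_eq (rp_prime v) Nat.prime_two).1 h6)
    · exact ha h5
  have h16 : ∀ v : HeightOneSpectrum (𝓞 K), rp v ≠ 2 → ¬ (rp v : ℤ) ∣ b →
      ¬ (rp v : ℤ) ∣ (-2 * a) ^ 2 - 4 * (a ^ 2 - 4 * b) := by
    intro v h2 hb h3
    have hqZ : Prime ((rp v : ℕ) : ℤ) := Nat.prime_iff_prime_int.1 (rp_prime v)
    rw [show (-2 * a) ^ 2 - 4 * (a ^ 2 - 4 * b) = 16 * b by ring] at h3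
    rcases hqZ.dvd_or_dvd h3 with h5 | h5
    · have h6 : rp v ∣ 2 ^ 4 := by exact_mod_cast h5
      exact h2 ((Nat.prime_dvd_prime_iff_eq (rp_prime v) Nat.prime_two).1
        ((rp_prime v).dvd_of_dvd_pow h6))
    · exact hb h5
  have hs16 : ∀ v : HeightOneSpectrum (𝓞 K), rp v ≠ 2 → ¬ SqMod (rp v) b →
      ¬ SqMod (rp v) ((-2 * a) ^ 2 - 4 * (a ^ 2 - 4 * b)) := by
    intro v h2 hb h3
    have hsq := mt (sq_of_res (v := v) h2 (x := b) (by
      intro h4
      exact hb ⟨0, by simpa using h4⟩))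
    apply hb
    -- divide by sixteen modulo the prime
    obtain ⟨t, ht⟩ := h3
    have hq := rp_prime v
    have hcop : IsCoprime (4 : ℤ) (rp v : ℤ) := by
      rw [show (4 : ℤ) = ((2 ^ 2 : ℕ) : ℤ) by norm_num, Nat.isCoprime_iff_coprime]
      apply Nat.Coprime.pow_left
      rw [Nat.coprime_primes Nat.prime_two hq]
      exact fun h => h2 h.symm
    obtain ⟨x, y, hxy⟩ := hcop
    refine ⟨x * t, ?_⟩
    have h4 : b - (x * t) ^ 2 =
        x ^ 2 * (((-2 * a) ^ 2 - 4 * (a ^ 2 - 4 * b)) - t ^ 2) +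
          (rp v : ℤ) * (b * y * (1 + x * 4)) := by
      have h5 : (rp v : ℤ) * y = 1 - x * 4 := by linear_combination hxy
      linear_combination (-b * (1 + x * 4)) * h5
    rw [h4]
    exact dvd_add (ht.mul_left _) (dvd_mul_right _ _)
  refine ⟨?_, ?_, ?_, ?_, ?_⟩
  · intro v hv hv'
    have hq := rp_prime v
    by_cases h2 : rp v = 2
    · apply eo_of_even v hd
      obtain ⟨t, z, c, ht, hz, hc, hdt⟩ := hpri v h2
      have hlt4 : Valued.v (4 : v.adicCompletion K) < 1 := by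
        have h3 := (val_int_lt v 4).2 (by rw [h2]; exact ⟨2, by norm_num⟩)
        exact_mod_cast h3
      have h3 : Valued.v (z ^ 2 - 4 * c) = 1 := by
        rw [val_close (x := z ^ 2 - 4 * c) (y := z ^ 2), map_pow, hz, one_pow]
        rw [show z ^ 2 - 4 * c - z ^ 2 = -(4 * c) by ring, Valuation.map_neg, map_mul, map_pow, hz,
          one_pow]
        exact mul_lt_one_of_lt_of_le hlt4 hc
      have h4 : z ^ 2 - 4 * c ≠ 0 := by
        intro h5
        rw [h5, map_zero] at h3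
        exact zero_ne_one h3
      rw [hdt, log_mul' (pow_ne_zero 2 ht) h4, h3, log_one, add_zero]
      exact even_of_sq ⟨t, sq t⟩
    · have hbD : ¬ (rp v : ℤ) ∣ b * (a ^ 2 - 4 * b) := by
        intro h3
        exact hv (ov_of_rp ⟨hq, h2, h3⟩)
      have hb : ¬ (rp v : ℤ) ∣ b := fun h => hbD (h.mul_right _)
      have hD : ¬ (rp v : ℤ) ∣ a ^ 2 - 4 * b := fun h => hbD (h.mul_left _)
      by_cases hqn : (rp v : ℤ) ∣ n
      · rcases hn.pr (rp v) hq hqn hbD with ⟨h3, -, -⟩ | ⟨-, h4, -⟩ | ⟨-, -, h4, -⟩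
        · exact absurd (ov_of_rp (by exact_mod_cast h3)) hv'
        · exact (P_X hodd h2 hD (h16 v h2 hb) (hs16 v h2 h4) hn.sqf hqn hd (E'_form hf v)).1
        · exact (P_X hodd h2 hD (h16 v h2 hb) (hs16 v h2 h4) hn.sqf hqn hd (E'_form hf v)).1
      · exact unit_X hD hqn hd (E'_form hf v)
  · intro v hv
    have h2 := rp_of_not_oddP hv
    exact pri_of v (two_mem h2) hd (hpri v h2)
  · intro v hv
    have hq := rp_prime v
    have hS : rp v ∈ {q : ℕ | q.Prime ∧ q ≠ 2 ∧ (q : ℤ) ∣ b * (a ^ 2 - 4 * b)} :=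
      rp_of_ov (fun q hq => hq.1) hv
    obtain ⟨-, h2, hbD⟩ := hS
    have hqZ : Prime ((rp v : ℕ) : ℤ) := Nat.prime_iff_prime_int.1 hq
    change (eo v (sc d) = 0 ∧ la v (sc d) = 0) ∨
      (eo v (sc d) = eo v (sc ((gI a b (rp v) : ℤ) : K)) ∧
        la v (sc d) = la v (sc ((gI a b (rp v) : ℤ) : K)))
    by_cases hb : (rp v : ℤ) ∣ b
    · by_cases ha : (rp v : ℤ) ∣ a
      · have h3 := mini_val hab hq ha hb
        have h4 : gI a b (rp v) = -b := by
          unfold gI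
          rw [if_pos hb, if_neg (by rw [h3]; decide)]
        rw [h4]
        exact III_X' hodd hab h2 ha hb (hn.three _ hq h2 ha hb) hd (E'_form2 hf v)
      · have hD : ¬ (rp v : ℤ) ∣ a ^ 2 - 4 * b := by
          intro h3
          have h4 : (rp v : ℤ) ∣ a ^ 2 := by
            have h5 : (rp v : ℤ) ∣ (a ^ 2 - 4 * b) + b * 4 := dvd_add h3 (hb.mul_right 4)
            rwa [show (a ^ 2 - 4 * b) + b * 4 = a ^ 2 by ring] at h5
          exact ha (hqZ.dvd_of_dvd_pow h4)
        by_cases he : Even (padicValInt (rp v) b)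
        · obtain ⟨h3, h4⟩ := hn.bev _ hq h2 hb ha he
          have h5 : gI a b (rp v) = nr (rp v) := by
            unfold gI
            rw [if_pos hb, if_pos he]
          rw [h5]
          exact same_of_even hodd h2 ⟨_, h4⟩ (unit_X hD h3 hd (E'_form hf v))
        · obtain ⟨u, b', k, h3, h4, h5, h6⟩ := hn.bod _ hq h2 hb ha (Nat.not_even_iff_odd.1 he)
          have h7 : gI a b (rp v) = -b := by
            unfold gI
            rw [if_pos hb, if_neg he]
          rw [h7]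
          exact Mo_X' hodd h2 hb0 ha h3 h4 h5 h6 hd (E'_form2 hf v)
    · have hD : (rp v : ℤ) ∣ a ^ 2 - 4 * b := (hqZ.dvd_or_dvd hbD).resolve_left hb
      have ha : ¬ (rp v : ℤ) ∣ a := by
        intro h4
        have h5 : (rp v : ℤ) ∣ 4 * b := by
          have h6 : (rp v : ℤ) ∣ a * a - (a ^ 2 - 4 * b) := dvd_sub (h4.mul_right a) hD
          rwa [show a * a - (a ^ 2 - 4 * b) = 4 * b by ring] at h6
        rcases hqZ.dvd_or_dvd h5 with h6 | h6
        · have h7 : rp v ∣ 2 ^ 2 := by exact_mod_cast h6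
          exact h2 ((Nat.prime_dvd_prime_iff_eq hq Nat.prime_two).1 (hq.dvd_of_dvd_pow h7))
        · exact hb h6
      by_cases he : Even (padicValInt (rp v) (a ^ 2 - 4 * b))
      · obtain ⟨h3, h4⟩ := hn.dev _ hq h2 hD hb he
        have h5 : gI a b (rp v) = nr (rp v) := by
          unfold gI
          rw [if_neg hb, if_pos he]
        rw [h5]
        exact same_of_even hodd h2 ⟨_, h4⟩
          (Me_X hodd h2 hD0 (ha2 v h2 ha) hD he h3 h4 hd (E'_form hf v))
      · obtain ⟨u, d', k, h3, h4, h5, h6⟩ := hn.dod _ hq h2 hD hb (Nat.not_even_iff_odd.1 he)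
        have h7 : gI a b (rp v) = a ^ 2 - 4 * b := by
          unfold gI
          rw [if_neg hb, if_neg he]
        rw [h7]
        have h8 : SqMod (rp v) (-(-2 * a * u * d')) := by
          rw [show -(-2 * a * u * d') = 2 * a * u * d' by ring]
          exact h6
        exact Mo_X hodd h2 hD0 (ha2 v h2 ha) h3 h4 h5 h8 hd (E'_form hf v)
  · intro v hv
    have hq := rp_prime v
    have hS : rp v ∈ (Pp' : Set ℕ) := rp_of_ov (fun q hq => (hn.pp' q hq).1) hv
    obtain ⟨-, hqn, h2bD⟩ := hn.pp' (rp v) hS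
    have h2 : rp v ≠ 2 := by
      intro h3
      apply h2bD
      rw [h3]
      exact ⟨b * (a ^ 2 - 4 * b), by push_cast; ring⟩
    have hbD : ¬ (rp v : ℤ) ∣ b * (a ^ 2 - 4 * b) := fun h => h2bD (h.mul_left 2)
    have hb : ¬ (rp v : ℤ) ∣ b := fun h => hbD (h.mul_right _)
    have hD : ¬ (rp v : ℤ) ∣ a ^ 2 - 4 * b := fun h => hbD (h.mul_left _)
    rcases hn.pr (rp v) hq hqn hbD with ⟨h3, -, -⟩ | ⟨-, h4, h3⟩ | ⟨-, h3, -, -⟩
    · exact absurd hS (Finset.disjoint_left.1 hdj h3)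
    · exact (P_X hodd h2 hD (h16 v h2 hb) (hs16 v h2 h4) hn.sqf hqn hd (E'_form hf v)).2 h3
    · exact absurd hS h3
  · intro hτ w
    apply si_of_inf ?_ hd hi
    have hn2 : 0 < n ^ 2 := by positivity
    rcases hn.t1 hτ with h | ⟨h3, h4, h5⟩
    · left
      nlinarith
    · right
      exact ⟨mul_pos (by linarith) hn2, by linarith⟩

end H86TL
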