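import Pool.Agent.H73.IS.Par

/-!
Elementary tools for local squares and for the curves `y^2 = x (x^2 + a x + b)`.
-/

set_option autoImplicit false

open WithZero H73IS

namespace H86TL

section

variable {F : Type*} [Field F] {V : Valuation F (WithZero (Multiplicative ℤ))}

lemma vpos {x : F} (hx : x ≠ 0) : 0 < V x := zero_lt_iff.2 ((Valuation.ne_zero_iff V).2 hx)

lemma val_close {x y : F} (h : V (x - y) < V y) : V x = V y := by
  have h1 := Valuation.map_add_eq_of_lt_left V h
  rwa [add_sub_cancel] at h1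

lemma ne_close {x y : F} (h : V (x - y) < V y) : x ≠ 0 := by
  rintro rfl
  have h1 := val_close h
  rw [zero_sub, Valuation.map_neg] at h
  exact absurd h (lt_irrefl _)

lemma ne_close' {x y : F} (h : V (x - y) < V y) : y ≠ 0 := by
  rintro rfl
  rw [map_zero] at h
  exact not_lt_zero h

lemma sq_close (hS : ∀ x : F, V x < 1 → IsSquare (1 + x)) {x y : F} (h : V (x - y) < V y) :
    IsSquare (x * y) := by
  have hy := ne_close' h
  have h1 : V ((x - y) / y) < 1 := by
    rw [map_div₀]
    exact (div_lt_one₀ (vpos hy)).2 h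
  obtain ⟨s, hs⟩ := hS _ h1
  refine ⟨s * y, ?_⟩
  have h2 : 1 + (x - y) / y = x / y := by
    field_simp
    ring
  rw [h2] at hs
  calc x * y = (x / y) * (y * y) := by
        field_simp
    _ = _ := by
      rw [hs]
      ring

lemma sq_mul_sq {x s : F} (hs : s ≠ 0) : IsSquare (x * s ^ 2) ↔ IsSquare x := by
  constructor
  · rintro ⟨t, ht⟩
    refine ⟨t / s, ?_⟩
    field_simp
    linear_combination ht
  · rintro ⟨t, ht⟩
    exact ⟨t * s, by rw [ht]; ring⟩

lemma sq_trans {x y z : F} (hy : y ≠ 0) (h1 : IsSquare (x * y)) (h2 : IsSquare (y * z)) :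
    IsSquare (x * z) := by
  have h3 := h1.mul h2
  rw [show x * y * (y * z) = x * z * y ^ 2 by ring] at h3
  exact (sq_mul_sq hy).1 h3

lemma sq_symm {x y : F} (h : IsSquare (x * y)) : IsSquare (y * x) := by rwa [mul_comm]

lemma sq_self (x : F) : IsSquare (x * x) := ⟨x, rfl⟩

lemma log_mul' {x y : F} (hx : x ≠ 0) (hy : y ≠ 0) :
    log (V (x * y)) = log (V x) + log (V y) := by
  rw [map_mul, log_mul ((Valuation.ne_zero_iff V).2 hx) ((Valuation.ne_zero_iff V).2 hy)]

lemma log_pow' (x : F) (n : ℕ) : log (V (x ^ n)) = n * log (V x) := by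
  rw [map_pow, log_pow, nsmul_eq_mul]

lemma log_lt' {x y : F} (hx : x ≠ 0) (hy : y ≠ 0) : V x < V y ↔ log (V x) < log (V y) :=
  (log_lt_log ((Valuation.ne_zero_iff V).2 hx) ((Valuation.ne_zero_iff V).2 hy)).symm

lemma log_one' : log (V (1 : F)) = 0 := by rw [map_one, log_one]

lemma even_of_sq {x : F} (h : IsSquare x) : Even (log (V x)) := by
  obtain ⟨s, rfl⟩ := h
  by_cases hs : s = 0
  · rw [hs, mul_zero, map_zero]
    exact ⟨0, by simp⟩
  · exact ⟨log (V s), log_mul' hs hs⟩

lemma even_iff {x y : F} (hx : x ≠ 0) (hy : y ≠ 0) (h : IsSquare (x * y)) :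
    Even (log (V x)) ↔ Even (log (V y)) := by
  have h1 := even_of_sq (V := V) h
  rw [log_mul' hx hy, Int.even_add] at h1
  exact h1

/-- A nonzero element which is a square up to `w`, with `w` a square up to `z`. -/
lemma sq_of_eq {x w z y : F} (h : y ^ 2 = x * w) (hw : w ≠ 0) (hz : IsSquare (w * z)) :
    IsSquare (x * z) :=
  sq_trans hw ⟨y, by rw [← h]; ring⟩ hz

end

section

variable {F : Type*} [Field F]

theorem qpt_tw {a b d n : F} (hn : n ≠ 0) (hd : d ≠ 0)
    (H : QPt (a * n) (b * n ^ 2) d) :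
    IsSquare d ∨ IsSquare (b * d) ∨ ∃ z y : F, z ≠ 0 ∧ y ^ 2 = n * z * (z ^ 2 + a * z + b) ∧
      IsSquare (n * z * d) := by
  obtain ⟨M, e, N, hne, h⟩ := H
  by_cases he : e = 0
  · left
    subst he
    have hM : M ≠ 0 := by
      rcases hne with h1 | h1
      · exact h1
      · exact absurd rfl h1
    have h1 : N ^ 2 = d * M ^ 4 := by
      apply mul_left_cancel₀ hd
      linear_combination h
    refine ⟨N / M ^ 2, ?_⟩
    field_simp
    linear_combination -h1
  · right
    by_cases hM : M = 0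
    · left
      subst hM
      have h1 : d * N ^ 2 = b * n ^ 2 * e ^ 4 := by linear_combination h
      refine ⟨d * N / (n * e ^ 2), ?_⟩
      field_simp
      linear_combination -h1
    · right
      refine ⟨d * M ^ 2 / (e ^ 2 * n), d * M * N / (e ^ 3 * n), ?_, ?_, ?_⟩
      · exact div_ne_zero (mul_ne_zero hd (pow_ne_zero 2 hM)) (mul_ne_zero (pow_ne_zero 2 he) hn)
      · field_simp
        linear_combination h
      · refine ⟨d * M / e, ?_⟩
        field_simp

theorem qpt_xy {a b d : F} (hd : d ≠ 0) (H : QPt a b d) :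
    IsSquare d ∨ IsSquare (b * d) ∨ ∃ x y : F, x ≠ 0 ∧ y ^ 2 = x * (x ^ 2 + a * x + b) ∧
      IsSquare (x * d) := by
  have H1 : QPt (a * 1) (b * 1 ^ 2) d := by
    rw [mul_one, one_pow, mul_one]
    exact H
  rcases qpt_tw one_ne_zero hd H1 with h | h | ⟨z, y, hz, h1, h2⟩
  · exact Or.inl h
  · exact Or.inr (Or.inl h)
  · rw [one_mul] at h1 h2
    exact Or.inr (Or.inr ⟨z, y, hz, h1, h2⟩)

end

end H86TL
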