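import Pool.Agent.H38.T1.Tw
import Pool.Agent.H86.TL.Bs
import Pool.Agent.H10.GrPlace
import Pool.Agent.H10.Semi

/-!
Ramification and residue degrees in a Galois extension of odd degree are odd; residues and
non-residues in the completions.
-/

set_option autoImplicit false
open scoped Classical

open WithZero NumberField IsDedekindDomain H38RT H38T1

namespace H86TL

variable {K : Type} [Field K] [NumberField K]

theorem liesOver_rp (v : HeightOneSpectrum (𝓞 K)) :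
    v.asIdeal.LiesOver (Ideal.span {((rp v : ℕ) : ℤ)}) := by
  haveI : Fact (rp v).Prime := ⟨rp_prime v⟩
  have hpm : (Ideal.span {((rp v : ℕ) : ℤ)}).IsMaximal := Int.ideal_span_isMaximal_of_prime (rp v)
  have hum : v.asIdeal.IsMaximal := v.isMaximal
  constructor
  refine hpm.eq_of_le (Ideal.comap_ne_top _ hum.ne_top) ?_
  rw [Ideal.span_singleton_le_iff_mem, Ideal.under_def, Ideal.mem_comap]
  have h3 : algebraMap ℤ (𝓞 K) ((rp v : ℕ) : ℤ) = ((rp v : ℕ) : 𝓞 K) := by simp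
  rw [h3]
  exact rp_mem v

theorem odd_ef [IsGalois ℚ K] (hodd : Odd (Module.finrank ℚ K)) (v : HeightOneSpectrum (𝓞 K)) :
    Odd (v.asIdeal.ramificationIdx ℤ) ∧ Odd (v.asIdeal.inertiaDeg ℤ) := by
  haveI : Fact (rp v).Prime := ⟨rp_prime v⟩
  have hpm : (Ideal.span {((rp v : ℕ) : ℤ)}).IsMaximal := Int.ideal_span_isMaximal_of_prime (rp v)
  have hu := liesOver_rp v
  have h5 := Ideal.inertiaDegIn_eq_inertiaDeg (Ideal.span {((rp v : ℕ) : ℤ)}) v.asIdeal
    (K ≃ₐ[ℚ] K)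
  have h5' := Ideal.ramificationIdxIn_eq_ramificationIdx (Ideal.span {((rp v : ℕ) : ℤ)}) v.asIdeal
    (K ≃ₐ[ℚ] K)
  have h6 := Ideal.ncard_primesOver_mul_ramificationIdxIn_mul_inertiaDegIn
    (Ideal.span {((rp v : ℕ) : ℤ)}) (𝓞 K) (K ≃ₐ[ℚ] K)
  rw [IsGalois.card_aut_eq_finrank, h5, h5'] at h6
  rw [← h6, Nat.odd_mul, Nat.odd_mul] at hodd
  exact hodd.2

/-- The valuation of the prime below. -/
theorem val_rp (v : HeightOneSpectrum (𝓞 K)) :
    v.valuation K ((rp v : ℕ) : K) = exp (-(v.asIdeal.ramificationIdx ℤ : ℤ)) := by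
  haveI hF : Fact (rp v).Prime := ⟨rp_prime v⟩
  have hpm : (Ideal.span {((rp v : ℕ) : ℤ)}).IsMaximal := Int.ideal_span_isMaximal_of_prime (rp v)
  have hne : ((rp v : ℕ) : ℤ) ≠ 0 := by exact_mod_cast hF.out.ne_zero
  let u : HeightOneSpectrum ℤ := ⟨Ideal.span {((rp v : ℕ) : ℤ)}, hpm.isPrime, by
    rw [Ne, Ideal.span_singleton_eq_bot]
    exact hne⟩
  haveI : v.asIdeal.LiesOver u.asIdeal := liesOver_rp v
  have h1 := HeightOneSpectrum.intValuation_liesOver (A := ℤ) (B := 𝓞 K) u v ((rp v : ℕ) : ℤ)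
  have h2 : u.intValuation ((rp v : ℕ) : ℤ) = exp (-1 : ℤ) :=
    HeightOneSpectrum.intValuation_singleton (r := ((rp v : ℕ) : ℤ)) u hne rfl
  have h3 : u.asIdeal.ramificationIdx' v.asIdeal = v.asIdeal.ramificationIdx ℤ := by
    apply Ideal.ramificationIdx'_eq_ramificationIdx
    exact u.ne_bot
  rw [h2, h3] at h1
  have h4 : ((rp v : ℕ) : K) = algebraMap (𝓞 K) K (algebraMap ℤ (𝓞 K) ((rp v : ℕ) : ℤ)) := by
    simp
  rw [h4, HeightOneSpectrum.valuation_of_algebraMap, ← h1, ← exp_nsmul, nsmul_eq_mul]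
  congr 1
  ring

theorem card_res (v : HeightOneSpectrum (𝓞 K)) :
    Nat.card (𝓞 K ⧸ v.asIdeal) = rp v ^ v.asIdeal.inertiaDeg ℤ := by
  haveI : Fact (rp v).Prime := ⟨rp_prime v⟩
  have hpm : (Ideal.span {((rp v : ℕ) : ℤ)}).IsMaximal := Int.ideal_span_isMaximal_of_prime (rp v)
  have hu := liesOver_rp v
  have h8 := Ideal.absNorm_pow_inertiaDeg (Ideal.span {((rp v : ℕ) : ℤ)}) v.asIdeal
  rw [Ideal.absNorm_span_singleton] at h8
  have h9 : (Algebra.norm ℤ ((rp v : ℕ) : ℤ)).natAbs = rp v := by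
    rw [Algebra.norm_self]
    exact Int.natAbs_natCast _
  rw [h9] at h8
  rw [h8, Ideal.absNorm_apply, Submodule.cardQuot_apply]

end H86TL
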