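import Pool.Agent.H86.TL.Tr
import Pool.Agent.H10.RealPl
import Pool.Agent.H73.IS.Rel

/-!
Block L of T1: the everywhere soluble classes are in the Selmer groups: the odd places.
-/

set_option autoImplicit false
open scoped Classical

open WithZero NumberField IsDedekindDomain H38RT H38T1 Pool.Agent.H10 H73IS

namespace H86TL

variable {K : Type} [Field K] [NumberField K]

theorem qF {A B : ℤ} {d : K} (h : FinQ K (A : K) (B : K) d) (v : HeightOneSpectrum (𝓞 K)) :
    QPt ((A : ℤ) : v.adicCompletion K) ((B : ℤ) : v.adicCompletion K)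
      (algebraMap K (v.adicCompletion K) d) := by
  have h1 := h v
  rwa [map_intCast, map_intCast] at h1

theorem oddP_of {v : HeightOneSpectrum (𝓞 K)} (h2 : rp v ≠ 2) : OddP v := by
  have := val_eq_one_of_notMem (two_notMem h2)
  have e2 : ((2 : 𝓞 K) : K) = 2 := map_ofNat (algebraMap (𝓞 K) K) 2
  rw [e2] at this
  exact this

theorem two_mem {v : HeightOneSpectrum (𝓞 K)} (h2 : rp v = 2) : (2 : 𝓞 K) ∈ v.asIdeal := by
  have h3 : ((2 : ℕ) : 𝓞 K) ∈ v.asIdeal := by
    rw [← h2]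
    exact rp_mem v
  exact_mod_cast h3

theorem rp_of_not_oddP {v : HeightOneSpectrum (𝓞 K)} (h : ¬ OddP v) : rp v = 2 := by
  by_contra h2
  exact h (oddP_of h2)

theorem v2F {v : HeightOneSpectrum (𝓞 K)} (h2 : rp v ≠ 2) :
    Valued.v (2 : v.adicCompletion K) = 1 := val_two_one v (two_notMem h2)

/-- The valuation of an integer. -/
theorem log_int (v : HeightOneSpectrum (𝓞 K)) {x : ℤ} (hx : x ≠ 0) :
    log (Valued.v ((x : ℤ) : v.adicCompletion K)) =
      -((v.asIdeal.ramificationIdx ℤ : ℤ) * padicValInt (rp v) x) := by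
  haveI : Fact (rp v).Prime := ⟨rp_prime v⟩
  obtain ⟨y, hy⟩ : ∃ y : ℤ, x = (rp v : ℤ) ^ padicValInt (rp v) x * y := by
    obtain ⟨y, hy⟩ := (padicValInt_dvd_iff (padicValInt (rp v) x) x).2 (Or.inr le_rfl)
    exact ⟨y, hy⟩
  have hy1 : ¬ (rp v : ℤ) ∣ y := by
    rintro ⟨z, hz⟩
    have h1 : (rp v : ℤ) ^ (padicValInt (rp v) x + 1) ∣ x := by
      rw [hy, hz]
      exact ⟨z, by
        rw [← hz, ← hy]
        nth_rewrite 1 [hy]
        rw [hz]
        ring⟩
    rw [padicValInt_dvd_iff] at h1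
    rcases h1 with h1 | h1
    · exact hx h1
    · omega
  have hq : Valued.v (((rp v : ℕ) : ℤ) : v.adicCompletion K) =
      exp (-(v.asIdeal.ramificationIdx ℤ : ℤ)) := by
    have h1 : (((rp v : ℕ) : ℤ) : v.adicCompletion K) =
        algebraMap K (v.adicCompletion K) ((rp v : ℕ) : K) := by simp
    rw [h1, valued_algebraMap, val_rp]
  have hyV := val_int_one v hy1
  have h2 : Valued.v ((x : ℤ) : v.adicCompletion K) =
      Valued.v (((rp v : ℕ) : ℤ) : v.adicCompletion K) ^ padicValInt (rp v) x := by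
    nth_rewrite 1 [hy]
    rw [Int.cast_mul, Int.cast_pow, map_mul, map_pow, hyV, mul_one]
  rw [h2, log_pow, hq, log_exp, nsmul_eq_mul]
  ring

theorem even_int [IsGalois ℚ K] (hodd : Odd (Module.finrank ℚ K))
    (v : HeightOneSpectrum (𝓞 K)) {x : ℤ} (hx : x ≠ 0) :
    Even (log (Valued.v ((x : ℤ) : v.adicCompletion K))) ↔ Even (padicValInt (rp v) x) := by
  have h1 := (odd_ef hodd v).1
  rw [log_int v hx, even_neg, Int.even_mul]
  have h2 : ¬ Even (v.asIdeal.ramificationIdx ℤ : ℤ) := by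
    rw [Int.not_even_iff_odd]
    exact_mod_cast h1
  constructor
  · rintro (h3 | h3)
    · exact absurd h3 h2
    · exact_mod_cast h3
  · intro h3
    right
    exact_mod_cast h3

theorem odd_int [IsGalois ℚ K] (hodd : Odd (Module.finrank ℚ K))
    (v : HeightOneSpectrum (𝓞 K)) {x : ℤ} (hx : x ≠ 0) :
    Odd (log (Valued.v ((x : ℤ) : v.adicCompletion K))) ↔ Odd (padicValInt (rp v) x) := by
  rw [← Int.not_even_iff_odd, even_int hodd v hx, Nat.not_even_iff_odd]

theorem padic_sqf {q : ℕ} (hq : q.Prime) {n : ℤ} (hn : Squarefree n) (h : (q : ℤ) ∣ n) :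
    padicValInt q n = 1 := by
  haveI : Fact q.Prime := ⟨hq⟩
  have h1 : (q : ℤ) ^ 1 ∣ n := by rwa [pow_one]
  rw [padicValInt_dvd_iff] at h1
  have hn0 : n ≠ 0 := hn.ne_zero
  have h2 : 1 ≤ padicValInt q n := h1.resolve_left hn0
  by_contra h3
  have h4 : (q : ℤ) ^ 2 ∣ n := (padicValInt_dvd_iff 2 n).2 (Or.inr (by omega))
  rw [sq] at h4
  have h5 := hn (q : ℤ) h4
  rw [Int.isUnit_iff] at h5
  have := hq.one_lt
  omega

theorem ne_zero_int (v : HeightOneSpectrum (𝓞 K)) {x : ℤ} (hx : x ≠ 0) :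
    ((x : ℤ) : v.adicCompletion K) ≠ 0 := by
  have hch : CharZero (v.adicCompletion K) := charZero_of_alg (K := K)
  exact_mod_cast hx

/-- `d` up to squares in the completion. -/
theorem alg_int (v : HeightOneSpectrum (𝓞 K)) (x : ℤ) :
    algebraMap K (v.adicCompletion K) ((x : ℤ) : K) = ((x : ℤ) : v.adicCompletion K) :=
  map_intCast _ _

end H86TL
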