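import Pool.Agent.H86.TL.Lx

/-!
Block L of T1: the everywhere soluble classes are in the Selmer groups: the primes dividing the
discriminant.
-/

set_option autoImplicit false
open scoped Classical

open WithZero NumberField IsDedekindDomain H38RT H38T1 Pool.Agent.H10 H73IS

namespace H86TL

variable {K : Type} [Field K] [NumberField K]

theorem hyp_ne {a b : ℤ} (hab : Hyp a b) : b ≠ 0 ∧ a ≠ 0 ∧ a ^ 2 - 4 * b ≠ 0 := by
  refine ⟨?_, ?_, ?_⟩
  · obtain ⟨k, b₀, h1, h2⟩ := hab.b4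
    rw [h1]
    apply mul_ne_zero (pow_ne_zero _ (by norm_num))
    rintro rfl
    norm_num at h2
  · rintro rfl
    have := hab.a4
    norm_num at this
  · intro h
    apply hab.nD
    rw [h]
    exact ⟨0, by ring⟩

theorem even_zero : Even (log (1 : WithZero (Multiplicative ℤ))) := by
  rw [log_one]
  exact ⟨0, by simp⟩

/-- A square times a class. -/
theorem sq_of_mul {F : Type*} [Field F] {x d s : F} (hs : s ≠ 0) (h : IsSquare (x * s ^ 2 * d)) :
    IsSquare (x * d) := by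
  rw [show x * s ^ 2 * d = x * d * s ^ 2 by ring, sq_mul_sq hs] at h
  exact h

theorem mini_val {a b : ℤ} (hab : Hyp a b) {q : ℕ} (hq : q.Prime) (ha : (q : ℤ) ∣ a)
    (hb : (q : ℤ) ∣ b) : padicValInt q b = 1 := by
  haveI : Fact q.Prime := ⟨hq⟩
  have h1 : (q : ℤ) ^ 1 ∣ b := by rwa [pow_one]
  rw [padicValInt_dvd_iff] at h1
  have h2 : 1 ≤ padicValInt q b := h1.resolve_left (hyp_ne hab).1
  by_contra h3
  exact hab.mini q hq ha ((padicValInt_dvd_iff 2 b).2 (Or.inr (by omega)))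

section types

variable [IsGalois ℚ K] (hodd : Odd (Module.finrank ℚ K)) {a b n : ℤ} (hab : Hyp a b)
  {v : HeightOneSpectrum (𝓞 K)} (h2 : rp v ≠ 2)

include hodd hab h2

/-- Type III: the valuations. -/
theorem III_val (ha : (rp v : ℤ) ∣ a) (hb : (rp v : ℤ) ∣ b) :
    Valued.v ((a : ℤ) : v.adicCompletion K) ≤ Valued.v ((b : ℤ) : v.adicCompletion K) ∧
    Valued.v ((b : ℤ) : v.adicCompletion K) < 1 ∧
    Odd (log (Valued.v ((b : ℤ) : v.adicCompletion K))) := by
  have hb0 := (hyp_ne hab).1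
  have ha0 := (hyp_ne hab).2.1
  have h1 := mini_val hab (rp_prime v) ha hb
  refine ⟨?_, (val_int_lt v b).2 hb, ?_⟩
  · haveI : Fact (rp v).Prime := ⟨rp_prime v⟩
    have h3 : (rp v : ℤ) ^ 1 ∣ a := by rwa [pow_one]
    rw [padicValInt_dvd_iff] at h3
    have h4 : 1 ≤ padicValInt (rp v) a := h3.resolve_left ha0
    rw [← log_le_log ((Valuation.ne_zero_iff _).2 (ne_zero_int v ha0))
      ((Valuation.ne_zero_iff _).2 (ne_zero_int v hb0)), log_int v ha0, log_int v hb0, h1]
    have h5 : (1 : ℤ) ≤ padicValInt (rp v) a := by exact_mod_cast h4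
    have h6 : (0 : ℤ) ≤ v.asIdeal.ramificationIdx ℤ := Int.natCast_nonneg _
    push_cast
    nlinarith
  · rw [odd_int hodd v hb0, h1]
    exact odd_one

theorem III_X (ha : (rp v : ℤ) ∣ a) (hb : (rp v : ℤ) ∣ b) (hn : ¬ (rp v : ℤ) ∣ n) {d : K}
    (hd : d ≠ 0) (H : QPt (((a : ℤ) : v.adicCompletion K) * ((n : ℤ) : v.adicCompletion K))
      (((b : ℤ) : v.adicCompletion K) * ((n : ℤ) : v.adicCompletion K) ^ 2)
      (algebraMap K (v.adicCompletion K) d)) : tp v (sc d) (sc ((-b : ℤ) : K)) = 0 := by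
  obtain ⟨h3, h4, h5⟩ := III_val hodd hab h2 ha hb
  have hnV := val_int_one v hn
  have hn0 : ((n : ℤ) : v.adicCompletion K) ≠ 0 := by
    intro h0
    rw [h0, map_zero] at hnV
    exact zero_ne_one hnV
  have hdF := (map_ne_zero (algebraMap K (v.adicCompletion K))).2 hd
  have hb0 : ((b : ℤ) : K) ≠ 0 := by exact_mod_cast (hyp_ne hab).1
  rcases loc_III (hS_odd v (two_notMem h2)) (by
      rw [map_mul, map_mul, map_pow, hnV, one_pow, mul_one, mul_one]
      exact h3) (by
      rw [map_mul, map_pow, hnV, one_pow, mul_one]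
      exact h4) (by
      rw [map_mul, map_pow, hnV, one_pow, mul_one]
      exact h5) hdF H with h | h
  · obtain ⟨h6, h7⟩ := triv_of_sq v (oddP_of h2) hd h
    exact tp_zero_left v h6 h7
  · have h6 := sq_of_mul hn0 h
    rw [← alg_int] at h6
    obtain ⟨h7, h8⟩ := same_of_sq v (oddP_of h2) hb0 hd h6
    rw [Int.cast_neg]
    exact tp_same v h7 h8 (tp_neg v (oddP_of h2) hb0)

theorem III_X' (ha : (rp v : ℤ) ∣ a) (hb : (rp v : ℤ) ∣ b) (hn : ¬ (rp v : ℤ) ∣ n) {d : K}
    (hd : d ≠ 0) (H : QPt (-2 * ((a : ℤ) : v.adicCompletion K) * ((n : ℤ) : v.adicCompletion K))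
      ((((a : ℤ) : v.adicCompletion K) ^ 2 - 4 * ((b : ℤ) : v.adicCompletion K)) *
        ((n : ℤ) : v.adicCompletion K) ^ 2)
      (algebraMap K (v.adicCompletion K) d)) : (eo v (sc d) = 0 ∧ la v (sc d) = 0) ∨
    (eo v (sc d) = eo v (sc ((-b : ℤ) : K)) ∧ la v (sc d) = la v (sc ((-b : ℤ) : K))) := by
  obtain ⟨h3, h4, h5⟩ := III_val hodd hab h2 ha hb
  have hnV := val_int_one v hn
  have hn0 : ((n : ℤ) : v.adicCompletion K) ≠ 0 := by
    intro h0
    rw [h0, map_zero] at hnV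
    exact zero_ne_one hnV
  have hdF := (map_ne_zero (algebraMap K (v.adicCompletion K))).2 hd
  have hb0 : ((b : ℤ) : K) ≠ 0 := by exact_mod_cast (hyp_ne hab).1
  have hbF := ne_of_odd h5
  have h22 := v2F (v := v) h2
  have h42 : Valued.v (4 : v.adicCompletion K) = 1 := by
    rw [Tq_four, h22, one_mul]
  have hDc : Valued.v (((a : ℤ) : v.adicCompletion K) ^ 2 - 4 * ((b : ℤ) : v.adicCompletion K) -
      -(4 * ((b : ℤ) : v.adicCompletion K))) <
      Valued.v (-(4 * ((b : ℤ) : v.adicCompletion K))) := by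
    rw [show ((a : ℤ) : v.adicCompletion K) ^ 2 - 4 * ((b : ℤ) : v.adicCompletion K) -
      -(4 * ((b : ℤ) : v.adicCompletion K)) = ((a : ℤ) : v.adicCompletion K) ^ 2 by ring,
      Valuation.map_neg, map_mul, h42, one_mul, map_pow, sq]
    calc _ ≤ Valued.v ((b : ℤ) : v.adicCompletion K) * Valued.v ((b : ℤ) : v.adicCompletion K) :=
          mul_le_mul' h3 h3
      _ < Valued.v ((b : ℤ) : v.adicCompletion K) * 1 := mul_lt_mul_of_pos_left h4 (vpos hbF)
      _ = _ := mul_one _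
  have hDV : Valued.v (((a : ℤ) : v.adicCompletion K) ^ 2 - 4 * ((b : ℤ) : v.adicCompletion K)) =
      Valued.v ((b : ℤ) : v.adicCompletion K) := by
    rw [val_close hDc, Valuation.map_neg, map_mul, h42, one_mul]
  have hDs := sq_close (hS_odd v (two_notMem h2)) hDc
  rcases loc_III (hS_odd v (two_notMem h2)) (by
      rw [map_mul, map_mul, map_mul, map_pow, hnV, one_pow, mul_one, mul_one, hDV,
        Valuation.map_neg, h22, one_mul]
      exact h3) (by
      rw [map_mul, map_pow, hnV, one_pow, mul_one, hDV]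
      exact h4) (by
      rw [map_mul, map_pow, hnV, one_pow, mul_one, hDV]
      exact h5) hdF H with h | h
  · exact Or.inl (triv_of_sq v (oddP_of h2) hd h)
  · right
    have h6 := sq_of_mul hn0 h
    have h7 := sq_trans (ne_close hDc) (sq_symm hDs) h6
    have h20 : (2 : v.adicCompletion K) ≠ 0 := by
      intro h0
      rw [h0, map_zero] at h22
      exact zero_ne_one h22
    rw [show -(4 * ((b : ℤ) : v.adicCompletion K)) * algebraMap K (v.adicCompletion K) d =
      (-((b : ℤ) : v.adicCompletion K) * algebraMap K (v.adicCompletion K) d) * 2 ^ 2 by ring,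
      sq_mul_sq h20] at h7
    have h8 : IsSquare (algebraMap K (v.adicCompletion K) ((-b : ℤ) : K) *
        algebraMap K (v.adicCompletion K) d) := by
      rw [alg_int, Int.cast_neg]
      exact h7
    exact same_of_sq v (oddP_of h2) (by
      rw [Int.cast_neg]
      exact neg_ne_zero.2 hb0) hd h8

end types

/-- The multiplicative type, even valuation; for a general pair of integers. -/
theorem Me_X [IsGalois ℚ K] (hodd : Odd (Module.finrank ℚ K)) {A B n : ℤ}
    {v : HeightOneSpectrum (𝓞 K)} (h2 : rp v ≠ 2) (hB0 : B ≠ 0) (hA : ¬ (rp v : ℤ) ∣ A)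
    (hB : (rp v : ℤ) ∣ B) (he : Even (padicValInt (rp v) B)) (hn : ¬ (rp v : ℤ) ∣ n)
    (hr : ¬ SqMod (rp v) (A * n)) {d : K} (hd : d ≠ 0)
    (H : QPt (((A : ℤ) : v.adicCompletion K) * ((n : ℤ) : v.adicCompletion K))
      (((B : ℤ) : v.adicCompletion K) * ((n : ℤ) : v.adicCompletion K) ^ 2)
      (algebraMap K (v.adicCompletion K) d)) : eo v (sc d) = 0 := by
  have hnV := val_int_one v hn
  have hAV := val_int_one v hA
  have hn0 : ((n : ℤ) : v.adicCompletion K) ≠ 0 := by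
    intro h0
    rw [h0, map_zero] at hnV
    exact zero_ne_one hnV
  have hdF := (map_ne_zero (algebraMap K (v.adicCompletion K))).2 hd
  apply eo_of_even v hd
  have hns := not_sq_of_nonres hodd h2 hr
  push_cast at hns
  refine loc_Me (hS_odd v (two_notMem h2)) (by rw [map_mul, hAV, hnV, one_mul])
    (mul_ne_zero (ne_zero_int v hB0) (pow_ne_zero 2 hn0)) ?_ ?_ hns hdF H
  · rw [map_mul, map_pow, hnV, one_pow, mul_one]
    exact (val_int_lt v B).2 hB
  · rw [map_mul, map_pow, hnV, one_pow, mul_one]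
    exact (even_int hodd v hB0).2 he

/-- A place at which the fourth coefficient and the twist are units. -/
theorem unit_X {A B n : ℤ} {v : HeightOneSpectrum (𝓞 K)} (hB : ¬ (rp v : ℤ) ∣ B)
    (hn : ¬ (rp v : ℤ) ∣ n) {d : K} (hd : d ≠ 0)
    (H : QPt (((A : ℤ) : v.adicCompletion K) * ((n : ℤ) : v.adicCompletion K))
      (((B : ℤ) : v.adicCompletion K) * ((n : ℤ) : v.adicCompletion K) ^ 2)
      (algebraMap K (v.adicCompletion K) d)) : eo v (sc d) = 0 := by
  have hnV := val_int_one v hn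
  have hBV := val_int_one v hB
  have hdF := (map_ne_zero (algebraMap K (v.adicCompletion K))).2 hd
  apply eo_of_even v hd
  refine even_of_qpt _ ?_ ?_ hdF H
  · rw [map_mul, hnV, mul_one]
    exact val_int_le v A
  · rw [map_mul, map_pow, hnV, hBV, one_pow, mul_one]

/-- The data at a multiplicative place with odd valuation. -/
theorem Mo_data [IsGalois ℚ K] (hodd : Odd (Module.finrank ℚ K)) {A B n u B' : ℤ} {k : ℕ}
    {v : HeightOneSpectrum (𝓞 K)} (h2 : rp v ≠ 2) (hA : ¬ (rp v : ℤ) ∣ A)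
    (hn : n = (rp v : ℤ) * u) (hB : B = (rp v : ℤ) ^ (2 * k + 1) * B')
    (hu : ¬ (rp v : ℤ) ∣ u * B') (hs : SqMod (rp v) (-(A * u * B'))) :
    Valued.v ((A : ℤ) : v.adicCompletion K) = 1 ∧ Valued.v ((B : ℤ) : v.adicCompletion K) < 1 ∧
    Odd (log (Valued.v ((B : ℤ) : v.adicCompletion K))) ∧
    Odd (log (Valued.v ((n : ℤ) : v.adicCompletion K))) ∧
    IsSquare (-((A : ℤ) : v.adicCompletion K) * ((B : ℤ) : v.adicCompletion K) *
      ((n : ℤ) : v.adicCompletion K)) := by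
  have hq := rp_prime v
  haveI : Fact (rp v).Prime := ⟨hq⟩
  have hqZ : Prime ((rp v : ℕ) : ℤ) := Nat.prime_iff_prime_int.1 hq
  have hq0 : ((rp v : ℕ) : ℤ) ≠ 0 := hqZ.ne_zero
  have hu0 : u ≠ 0 := by
    rintro rfl
    exact hu (by rw [zero_mul]; exact dvd_zero _)
  have hB'0 : B' ≠ 0 := by
    rintro rfl
    exact hu (by rw [mul_zero]; exact dvd_zero _)
  have hu1 : ¬ (rp v : ℤ) ∣ u := fun h => hu (h.mul_right _)
  have hB'1 : ¬ (rp v : ℤ) ∣ B' := fun h => hu (h.mul_left _)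
  have hn0 : n ≠ 0 := by rw [hn]; exact mul_ne_zero hq0 hu0
  have hB0 : B ≠ 0 := by rw [hB]; exact mul_ne_zero (pow_ne_zero _ hq0) hB'0
  have pv : ∀ y : ℤ, ¬ (rp v : ℤ) ∣ y → padicValInt (rp v) y = 0 := by
    intro y hy
    exact padicValInt.eq_zero_of_not_dvd hy
  refine ⟨val_int_one v hA, ?_, ?_, ?_, ?_⟩
  · rw [val_int_lt, hB]
    exact (dvd_pow_self _ (by omega)).mul_right _
  · rw [odd_int hodd v hB0, hB, padicValInt.mul (pow_ne_zero _ hq0) hB'0, pv _ hB'1, add_zero]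
    have : padicValInt (rp v) (((rp v : ℕ) : ℤ) ^ (2 * k + 1)) = 2 * k + 1 := by
      have h3 : padicValInt (rp v) (((rp v : ℕ) : ℤ) ^ (2 * k + 1)) =
          padicValNat (rp v) ((rp v) ^ (2 * k + 1)) := by
        rw [← padicValInt.of_nat]
        push_cast
        rfl
      rw [h3, padicValNat.prime_pow]
    rw [this]
    exact ⟨k, rfl⟩
  · rw [odd_int hodd v hn0, hn, padicValInt.mul hq0 hu0, pv _ hu1, add_zero]
    have : padicValInt (rp v) ((rp v : ℕ) : ℤ) = 1 := by
      rw [padicValInt.of_nat, padicValNat_self]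
    rw [this]
    exact odd_one
  · have h3 : ¬ (rp v : ℤ) ∣ -(A * u * B') := by
      rw [dvd_neg]
      intro h4
      rcases hqZ.dvd_or_dvd h4 with h5 | h5
      · rcases hqZ.dvd_or_dvd h5 with h6 | h6
        · exact hA h6
        · exact hu1 h6
      · exact hB'1 h5
    have h4 := sq_of_res h2 h3 hs
    obtain ⟨s, hs'⟩ := h4
    refine ⟨s * (((rp v : ℕ) : ℤ) : v.adicCompletion K) ^ (k + 1), ?_⟩
    rw [hn, hB]
    push_cast at hs' ⊢
    linear_combination ((rp v : ℕ) : v.adicCompletion K) ^ (2 * k + 2) * hs'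

/-- The multiplicative type, odd valuation: the class is one or that of `B`. -/
theorem Mo_X [IsGalois ℚ K] (hodd : Odd (Module.finrank ℚ K)) {A B n u B' : ℤ} {k : ℕ}
    {v : HeightOneSpectrum (𝓞 K)} (h2 : rp v ≠ 2) (hB0 : B ≠ 0) (hA : ¬ (rp v : ℤ) ∣ A)
    (hn : n = (rp v : ℤ) * u) (hB : B = (rp v : ℤ) ^ (2 * k + 1) * B')
    (hu : ¬ (rp v : ℤ) ∣ u * B') (hs : SqMod (rp v) (-(A * u * B'))) {d : K} (hd : d ≠ 0)
    (H : QPt (((A : ℤ) : v.adicCompletion K) * ((n : ℤ) : v.adicCompletion K))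
      (((B : ℤ) : v.adicCompletion K) * ((n : ℤ) : v.adicCompletion K) ^ 2)
      (algebraMap K (v.adicCompletion K) d)) : (eo v (sc d) = 0 ∧ la v (sc d) = 0) ∨
    (eo v (sc d) = eo v (sc ((B : ℤ) : K)) ∧ la v (sc d) = la v (sc ((B : ℤ) : K))) := by
  obtain ⟨h3, h4, h5, h6, h7⟩ := Mo_data hodd h2 hA hn hB hu hs
  have hdF := (map_ne_zero (algebraMap K (v.adicCompletion K))).2 hd
  rcases loc_Mo (hS_odd v (two_notMem h2)) h3 h4 h5 h6 h7 hdF H with h | h
  · exact Or.inl (triv_of_sq v (oddP_of h2) hd h)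
  · right
    rw [← alg_int] at h
    exact same_of_sq v (oddP_of h2) (by exact_mod_cast hB0) hd h

/-- The multiplicative type, odd valuation, on the isogenous curve: the class is one or that of
`-B`. -/
theorem Mo_X' [IsGalois ℚ K] (hodd : Odd (Module.finrank ℚ K)) {A B n u B' : ℤ} {k : ℕ}
    {v : HeightOneSpectrum (𝓞 K)} (h2 : rp v ≠ 2) (hB0 : B ≠ 0) (hA : ¬ (rp v : ℤ) ∣ A)
    (hn : n = (rp v : ℤ) * u) (hB : B = (rp v : ℤ) ^ (2 * k + 1) * B')
    (hu : ¬ (rp v : ℤ) ∣ u * B') (hs : SqMod (rp v) (-(A * u * B'))) {d : K} (hd : d ≠ 0)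
    (H : QPt (-2 * ((A : ℤ) : v.adicCompletion K) * ((n : ℤ) : v.adicCompletion K))
      ((((A : ℤ) : v.adicCompletion K) ^ 2 - 4 * ((B : ℤ) : v.adicCompletion K)) *
        ((n : ℤ) : v.adicCompletion K) ^ 2)
      (algebraMap K (v.adicCompletion K) d)) : (eo v (sc d) = 0 ∧ la v (sc d) = 0) ∨
    (eo v (sc d) = eo v (sc ((-B : ℤ) : K)) ∧ la v (sc d) = la v (sc ((-B : ℤ) : K))) := by
  obtain ⟨h3, h4, h5, h6, h7⟩ := Mo_data hodd h2 hA hn hB hu hs
  have hdF := (map_ne_zero (algebraMap K (v.adicCompletion K))).2 hd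
  rcases loc_Mo' (hS_odd v (two_notMem h2)) (v2F h2) h3 h4 h5 h6 h7 hdF H with h | h
  · exact Or.inl (triv_of_sq v (oddP_of h2) hd h)
  · right
    have h8 : IsSquare (algebraMap K (v.adicCompletion K) ((-B : ℤ) : K) *
        algebraMap K (v.adicCompletion K) d) := by
      rw [alg_int, Int.cast_neg]
      exact h
    exact same_of_sq v (oddP_of h2) (by
      rw [Int.cast_neg]
      exact neg_ne_zero.2 (by exact_mod_cast hB0)) hd h8

/-- Places dividing the twist and not the discriminant. -/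
theorem P_X [IsGalois ℚ K] (hodd : Odd (Module.finrank ℚ K)) {A B n : ℤ}
    {v : HeightOneSpectrum (𝓞 K)} (h2 : rp v ≠ 2) (hB : ¬ (rp v : ℤ) ∣ B)
    (hD : ¬ (rp v : ℤ) ∣ A ^ 2 - 4 * B) (hr : ¬ SqMod (rp v) (A ^ 2 - 4 * B))
    (hn : Squarefree n) (hqn : (rp v : ℤ) ∣ n) {d : K} (hd : d ≠ 0)
    (H : QPt (((A : ℤ) : v.adicCompletion K) * ((n : ℤ) : v.adicCompletion K))
      (((B : ℤ) : v.adicCompletion K) * ((n : ℤ) : v.adicCompletion K) ^ 2)
      (algebraMap K (v.adicCompletion K) d)) : eo v (sc d) = 0 ∧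
      (SqMod (rp v) B → la v (sc d) = 0) := by
  have hBV := val_int_one v hB
  have hDV := val_int_one v hD
  have hns := not_sq_of_nonres hodd h2 hr
  push_cast at hDV hns
  have hdF := (map_ne_zero (algebraMap K (v.adicCompletion K))).2 hd
  have hno : Odd (log (Valued.v ((n : ℤ) : v.adicCompletion K))) := by
    rw [odd_int hodd v hn.ne_zero, padic_sqf (rp_prime v) hn hqn]
    exact odd_one
  have hB0 : ((B : ℤ) : v.adicCompletion K) ≠ 0 := by
    intro h0
    rw [h0, map_zero] at hBV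
    exact zero_ne_one hBV
  rcases loc_P (hS_odd v (two_notMem h2)) (v2F h2) (val_int_le v A) hBV hDV hns hno hdF H with h | h
  · obtain ⟨h3, h4⟩ := triv_of_sq v (oddP_of h2) hd h
    exact ⟨h3, fun _ => h4⟩
  · refine ⟨?_, fun hs => ?_⟩
    · apply eo_of_even v hd
      refine (even_iff hB0 hdF h).1 ?_
      rw [hBV]
      exact even_zero
    · obtain ⟨s, hs'⟩ := sq_of_res h2 hB hs
      have hs0 : s ≠ 0 := by
        rintro rfl
        exact hB0 (by rw [hs', mul_zero])
      rw [hs', show s * s * algebraMap K (v.adicCompletion K) d =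
        algebraMap K (v.adicCompletion K) d * s ^ 2 by ring, sq_mul_sq hs0] at h
      exact (triv_of_sq v (oddP_of h2) hd h).2

end H86TL
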