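import Pool.Agent.H86.TL.Ef

/-!
Residues and non-residues in the completions of a Galois extension of odd degree.
-/

set_option autoImplicit false
open scoped Classical

open WithZero NumberField IsDedekindDomain H38RT H38T1 Pool.Agent.H10

namespace H86TL

variable {K : Type} [Field K] [NumberField K]

theorem exists_int_close (v : HeightOneSpectrum (𝓞 K)) (s : v.adicCompletion K)
    (hs : Valued.v s ≤ 1) :
    ∃ t : 𝓞 K, Valued.v (algebraMap K (v.adicCompletion K) (t : K) - s) < 1 := by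
  obtain ⟨k, hk⟩ := exists_close v s 0
  rw [exp_zero] at hk
  have hk1 : v.valuation K k ≤ 1 := by
    rw [← valued_algebraMap]
    have h2 : algebraMap K (v.adicCompletion K) k =
        (algebraMap K (v.adicCompletion K) k - s) + s := by ring
    rw [h2]
    exact Valuation.map_add_le _ hk.le hs
  obtain ⟨a, ha⟩ := v.exists_valuation_sub_lt_of_integer hk1 1
  refine ⟨a, ?_⟩
  have h3 : algebraMap K (v.adicCompletion K) (a : K) - s =
      algebraMap K (v.adicCompletion K) ((a : K) - k) + (algebraMap K (v.adicCompletion K) k - s) := by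
    rw [map_sub]
    ring
  rw [h3]
  refine Valuation.map_add_lt _ ?_ hk
  rw [valued_algebraMap]
  exact ha

theorem mem_of_val_lt (v : HeightOneSpectrum (𝓞 K)) {t : 𝓞 K}
    (h : Valued.v (algebraMap K (v.adicCompletion K) (t : K)) < 1) : t ∈ v.asIdeal := by
  rw [valued_algebraMap] at h
  exact (v.valuation_lt_one_iff_mem t).1 h

theorem val_int_le (v : HeightOneSpectrum (𝓞 K)) (x : ℤ) :
    Valued.v ((x : ℤ) : v.adicCompletion K) ≤ 1 := by
  have h1 : ((x : ℤ) : v.adicCompletion K) = algebraMap K (v.adicCompletion K) ((x : 𝓞 K) : K) := by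
    simp
  rw [h1, valued_algebraMap]
  exact v.valuation_le_one _

theorem val_int_lt (v : HeightOneSpectrum (𝓞 K)) (x : ℤ) :
    Valued.v ((x : ℤ) : v.adicCompletion K) < 1 ↔ (rp v : ℤ) ∣ x := by
  have h1 : ((x : ℤ) : v.adicCompletion K) = algebraMap K (v.adicCompletion K) ((x : 𝓞 K) : K) := by
    simp
  rw [h1, valued_algebraMap, ← mem_iff_int]
  exact v.valuation_lt_one_iff_mem _

theorem val_int_one (v : HeightOneSpectrum (𝓞 K)) {x : ℤ} (h : ¬ (rp v : ℤ) ∣ x) :
    Valued.v ((x : ℤ) : v.adicCompletion K) = 1 := by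
  rw [← val_int_lt, not_lt] at h
  exact le_antisymm (val_int_le v x) h

theorem two_notMem {v : HeightOneSpectrum (𝓞 K)} (h : rp v ≠ 2) : (2 : 𝓞 K) ∉ v.asIdeal := by
  intro h2
  have h3 : ((2 : ℕ) : 𝓞 K) ∈ v.asIdeal := by exact_mod_cast h2
  rw [mem_iff_eq Nat.prime_two] at h3
  exact h h3

/-- A residue modulo the prime below is a square in the completion. -/
theorem sq_of_res {v : HeightOneSpectrum (𝓞 K)} (h2 : rp v ≠ 2) {x : ℤ} (hx : ¬ (rp v : ℤ) ∣ x)
    (h : SqMod (rp v) x) : IsSquare ((x : ℤ) : v.adicCompletion K) := by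
  obtain ⟨t, ht⟩ := h
  have h3 : Valued.v (((x : ℤ) : v.adicCompletion K) - ((t : ℤ) : v.adicCompletion K) ^ 2) < 1 := by
    have h4 := (val_int_lt v _).2 ht
    push_cast at h4
    exact h4
  have h5 : ¬ (rp v : ℤ) ∣ t := by
    intro h6
    apply hx
    have h7 : (rp v : ℤ) ∣ (x - t ^ 2) + t * t := dvd_add ht (h6.mul_right t)
    rwa [show x - t ^ 2 + t * t = x by ring] at h7
  have h6 := val_int_one v h5
  have h7 : Valued.v (((t : ℤ) : v.adicCompletion K) ^ 2) = 1 := by rw [map_pow, h6, one_pow]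
  have h8 := sq_close (hS_odd v (two_notMem h2)) (by rw [h7]; exact h3)
  have h9 : ((t : ℤ) : v.adicCompletion K) ≠ 0 := by
    intro h10
    rw [h10, map_zero] at h6
    exact zero_ne_one h6
  exact (sq_mul_sq h9).1 h8

theorem odd_geom {q f : ℕ} (hq : Odd q) (hf : Odd f) : Odd (∑ i ∈ Finset.range f, q ^ i) := by
  rw [Finset.odd_sum_iff_odd_card_odd]
  have : {x ∈ Finset.range f | Odd (q ^ x)} = Finset.range f := by
    apply Finset.filter_true_of_mem
    intro x _
    exact hq.pow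
  rw [this, Finset.card_range]
  exact hf

/-- A non-residue modulo the prime below is not a square in the completion. -/
theorem not_sq_of_nonres [IsGalois ℚ K] (hodd : Odd (Module.finrank ℚ K))
    {v : HeightOneSpectrum (𝓞 K)} (h2 : rp v ≠ 2) {x : ℤ} (h : ¬ SqMod (rp v) x) :
    ¬ IsSquare ((x : ℤ) : v.adicCompletion K) := by
  rintro ⟨s, hs⟩
  have hq := rp_prime v
  haveI : Fact (rp v).Prime := ⟨hq⟩
  have hqo : Odd (rp v) := hq.odd_of_ne_two h2
  have hsV : Valued.v s ≤ 1 := by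
    by_contra hcon
    push Not at hcon
    have h3 := val_int_le v x
    rw [hs, map_mul] at h3
    exact absurd h3 (not_le.2 (one_lt_mul_of_lt_of_le hcon hcon.le))
  obtain ⟨t, ht⟩ := exists_int_close v s hsV
  have htV : Valued.v (algebraMap K (v.adicCompletion K) (t : K)) ≤ 1 := by
    rw [valued_algebraMap]
    exact v.valuation_le_one t
  have hmem : (x : 𝓞 K) - t ^ 2 ∈ v.asIdeal := by
    apply mem_of_val_lt
    have e : algebraMap K (v.adicCompletion K) (((x : 𝓞 K) - t ^ 2 : 𝓞 K) : K) =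
        -((algebraMap K (v.adicCompletion K) (t : K) - s) *
          (algebraMap K (v.adicCompletion K) (t : K) + s)) := by
      have e1 : algebraMap K (v.adicCompletion K) (((x : 𝓞 K) - t ^ 2 : 𝓞 K) : K) =
          ((x : ℤ) : v.adicCompletion K) - (algebraMap K (v.adicCompletion K) (t : K)) ^ 2 := by
        simp
      rw [e1, hs]
      ring
    rw [e, Valuation.map_neg, map_mul]
    calc _ ≤ Valued.v (algebraMap K (v.adicCompletion K) (t : K) - s) * 1 :=
          mul_le_mul_right (Valuation.map_add_le _ htV hsV) _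
      _ = Valued.v (algebraMap K (v.adicCompletion K) (t : K) - s) := mul_one _
      _ < 1 := ht
  haveI : v.asIdeal.IsMaximal := v.isMaximal
  letI : Field (𝓞 K ⧸ v.asIdeal) := Ideal.Quotient.field _
  haveI : Finite (𝓞 K ⧸ v.asIdeal) := Ideal.finiteQuotientOfFreeOfNeBot _ v.ne_bot
  letI : Fintype (𝓞 K ⧸ v.asIdeal) := Fintype.ofFinite _
  haveI : CharP (𝓞 K ⧸ v.asIdeal) (rp v) := ringChar.charP _
  have hsq : IsSquare ((x : ℤ) : 𝓞 K ⧸ v.asIdeal) := by
    refine ⟨Ideal.Quotient.mk _ t, ?_⟩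
    have h3 := Ideal.Quotient.eq_zero_iff_mem.2 hmem
    rw [map_sub, map_pow, map_intCast, sub_eq_zero] at h3
    rw [h3, sq]
  have hx : ¬ (rp v : ℤ) ∣ x := by
    intro h3
    exact h ⟨0, by simpa using h3⟩
  have hx0 : ((x : ℤ) : 𝓞 K ⧸ v.asIdeal) ≠ 0 := by
    rw [Ne, CharP.intCast_eq_zero_iff (𝓞 K ⧸ v.asIdeal) (rp v)]
    exact hx
  have hx0' : ((x : ℤ) : ZMod (rp v)) ≠ 0 := by
    rw [Ne, ZMod.intCast_zmod_eq_zero_iff_dvd]
    exact hx
  have hns : ¬ IsSquare ((x : ℤ) : ZMod (rp v)) := by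
    rintro ⟨y, hy⟩
    obtain ⟨t, rfl⟩ := ZMod.intCast_surjective y
    apply h
    refine ⟨t, ?_⟩
    rw [← ZMod.intCast_zmod_eq_zero_iff_dvd]
    push_cast
    rw [hy]
    ring
  rw [ZMod.euler_criterion _ hx0'] at hns
  have hneg := (ZMod.pow_div_two_eq_neg_one_or_one _ hx0').resolve_left hns
  -- transport to the residue field
  have hneg' : ((x : ℤ) : 𝓞 K ⧸ v.asIdeal) ^ (rp v / 2) = -1 := by
    have h3 := congrArg (ZMod.castHom dvd_rfl (𝓞 K ⧸ v.asIdeal)) hneg
    rw [map_pow, map_intCast, map_neg, map_one] at h3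
    exact h3
  have hF2 : ringChar (𝓞 K ⧸ v.asIdeal) ≠ 2 := h2
  rw [FiniteField.isSquare_iff hF2 hx0] at hsq
  have hcard : Fintype.card (𝓞 K ⧸ v.asIdeal) = rp v ^ v.asIdeal.inertiaDeg ℤ := by
    rw [← card_res, Nat.card_eq_fintype_card]
  obtain ⟨f, hf⟩ : ∃ f, f = v.asIdeal.inertiaDeg ℤ := ⟨_, rfl⟩
  have hfo : Odd f := by rw [hf]; exact (odd_ef hodd v).2
  rw [hcard, ← hf] at hsq
  have hdiv : rp v ^ f / 2 = (rp v / 2) * ∑ i ∈ Finset.range f, rp v ^ i := by
    obtain ⟨A, hA⟩ := hqo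
    have h3 : (∑ i ∈ Finset.range f, (rp v) ^ i) * (rp v - 1) = rp v ^ f - 1 :=
      Nat.geomSum_eq hq.two_le f ▸ Nat.div_mul_cancel (by
        exact (Nat.sub_dvd_pow_sub_pow (rp v) 1 f).trans (by rw [one_pow]))
    have h4 : 1 ≤ rp v ^ f := Nat.one_le_pow _ _ hq.pos
    have h5 : rp v / 2 = A := by omega
    have h6 : rp v - 1 = 2 * A := by omega
    rw [h6] at h3
    rw [h5]
    obtain ⟨S, hS⟩ : ∃ S, S = ∑ i ∈ Finset.range f, (rp v) ^ i := ⟨_, rfl⟩
    rw [← hS] at h3 ⊢
    have h7 : S * (2 * A) = 2 * (A * S) := by ring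
    omega
  rw [hdiv, pow_mul, hneg', (odd_geom hqo hfo).neg_one_pow] at hsq
  have h3 : (2 : 𝓞 K ⧸ v.asIdeal) = 0 := by linear_combination -hsq
  have h4 : ((2 : ℕ) : 𝓞 K ⧸ v.asIdeal) = 0 := by exact_mod_cast h3
  rw [CharP.cast_eq_zero_iff (𝓞 K ⧸ v.asIdeal) (rp v)] at h4
  exact h2 ((Nat.prime_dvd_prime_iff_eq hq Nat.prime_two).1 h4)

/-- Five is not a square in the completions above two. -/
theorem five_not_sq [IsGalois ℚ K] (hodd : Odd (Module.finrank ℚ K))
    {v : HeightOneSpectrum (𝓞 K)} (h2 : rp v = 2) : ¬ IsSquare (5 : v.adicCompletion K) := by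
  rintro ⟨s, hs⟩
  have h20 : (2 : v.adicCompletion K) ≠ 0 := two_ne_zero
  obtain ⟨w, hw⟩ : ∃ w, w = (s - 1) / 2 := ⟨_, rfl⟩
  have hw2 : w ^ 2 + w - 1 = 0 := by
    rw [hw]
    field_simp
    linear_combination -hs
  have hwV : Valued.v w ≤ 1 := by
    by_contra hcon
    push Not at hcon
    have h3 : w ^ 2 = 1 - w := by linear_combination hw2
    have h4 : Valued.v (w ^ 2) ≤ Valued.v w := by
      rw [h3]
      refine (Valuation.map_sub _ _ _).trans (max_le ?_ le_rfl)
      rw [map_one]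
      exact hcon.le
    rw [map_pow, sq] at h4
    have h5 : Valued.v w * 1 < Valued.v w * Valued.v w :=
      mul_lt_mul_of_pos_left hcon (zero_lt_one.trans hcon)
    rw [mul_one] at h5
    exact absurd h4 (not_le.2 h5)
  obtain ⟨t, ht⟩ := exists_int_close v w hwV
  have htV : Valued.v (algebraMap K (v.adicCompletion K) (t : K)) ≤ 1 := by
    rw [valued_algebraMap]
    exact v.valuation_le_one t
  have hmem : t ^ 2 + t - 1 ∈ v.asIdeal := by
    apply mem_of_val_lt
    have e : algebraMap K (v.adicCompletion K) ((t ^ 2 + t - 1 : 𝓞 K) : K) =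
        (algebraMap K (v.adicCompletion K) (t : K) - w) *
          (algebraMap K (v.adicCompletion K) (t : K) + w + 1) := by
      have e1 : algebraMap K (v.adicCompletion K) ((t ^ 2 + t - 1 : 𝓞 K) : K) =
          (algebraMap K (v.adicCompletion K) (t : K)) ^ 2 +
            algebraMap K (v.adicCompletion K) (t : K) - 1 := by
        simp
      rw [e1]
      linear_combination hw2
    rw [e, map_mul]
    have h3 : Valued.v (algebraMap K (v.adicCompletion K) (t : K) + w + 1) ≤ 1 :=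
      Valuation.map_add_le _ (Valuation.map_add_le _ htV hwV) (by rw [map_one])
    calc _ ≤ Valued.v (algebraMap K (v.adicCompletion K) (t : K) - w) * 1 :=
          mul_le_mul_right h3 _
      _ = Valued.v (algebraMap K (v.adicCompletion K) (t : K) - w) := mul_one _
      _ < 1 := ht
  haveI : v.asIdeal.IsMaximal := v.isMaximal
  letI : Field (𝓞 K ⧸ v.asIdeal) := Ideal.Quotient.field _
  haveI : Finite (𝓞 K ⧸ v.asIdeal) := Ideal.finiteQuotientOfFreeOfNeBot _ v.ne_bot
  letI : Fintype (𝓞 K ⧸ v.asIdeal) := Fintype.ofFinite _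
  haveI : CharP (𝓞 K ⧸ v.asIdeal) 2 := h2 ▸ ringChar.charP (𝓞 K ⧸ v.asIdeal)
  have h2F : (2 : 𝓞 K ⧸ v.asIdeal) = 0 := by
    have := CharP.cast_eq_zero (𝓞 K ⧸ v.asIdeal) 2
    exact_mod_cast this
  obtain ⟨y, hy⟩ : ∃ y : 𝓞 K ⧸ v.asIdeal, y = Ideal.Quotient.mk _ t := ⟨_, rfl⟩
  have hy2 : y ^ 2 + y + 1 = 0 := by
    have h3 := Ideal.Quotient.eq_zero_iff_mem.2 hmem
    rw [map_sub, map_add, map_pow, map_one, ← hy] at h3
    linear_combination h3 + h2F
  have hy3 : y ^ 3 = 1 := by linear_combination (y - 1) * hy2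
  have hy0 : y ≠ 0 := by
    rintro rfl
    rw [zero_pow two_ne_zero, zero_add, zero_add] at hy2
    exact one_ne_zero hy2
  have hy1 : y ≠ 1 := by
    intro h3
    rw [h3] at hy2
    have h4 : (1 : 𝓞 K ⧸ v.asIdeal) = 0 := by linear_combination hy2 - h2F
    exact one_ne_zero h4
  have hord : orderOf (Units.mk0 y hy0) = 3 := by
    haveI : Fact (Nat.Prime 3) := ⟨Nat.prime_three⟩
    apply orderOf_eq_prime
    · ext
      simpa using hy3
    · intro h3
      apply hy1
      have := congrArg Units.val h3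
      simpa using this
  have hdvd : 3 ∣ Fintype.card (𝓞 K ⧸ v.asIdeal)ˣ := hord ▸ orderOf_dvd_card
  rw [Fintype.card_units, ← Nat.card_eq_fintype_card, card_res, h2] at hdvd
  obtain ⟨m, hm⟩ := (odd_ef hodd v).2
  rw [hm, pow_succ, pow_mul] at hdvd
  have h4 : (2 ^ 2) ^ m % 3 = 1 := by
    rw [Nat.pow_mod]
    norm_num
  omega

end H86TL
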